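import Mathlib
import Pool.Agent.HDSum.Cover

/-!
# Hausdorff dimension and numbers of blocks of digits of an orbit; differences of orbits
-/

set_option autoImplicit false

open Finset Filter Topology Set MeasureTheory
open scoped ENNReal NNReal

namespace Pool.Agent.K1H67.CO

/-- the closure of the orbit of `x` modulo one under multiplication by `b` -/
def orb (b : ℕ) (x : ℝ) : Set ℝ := closure (Set.range fun m : ℕ => Int.fract ((b : ℝ) ^ m * x))

lemma orb_sub (b : ℕ) (x : ℝ) : orb b x ⊆ Icc 0 1 :=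
  closure_minimal (by
    rintro _ ⟨m, rfl⟩
    exact ⟨Int.fract_nonneg _, (Int.fract_lt_one _).le⟩) isClosed_Icc

lemma orb_compact (b : ℕ) (x : ℝ) : IsCompact (orb b x) :=
  isCompact_Icc.of_isClosed_subset isClosed_closure (orb_sub b x)

lemma dimH_Icc : dimH (Icc (0 : ℝ) 1) = 1 := by
  have h3 : (interior (Icc (0 : ℝ) 1)).Nonempty := by
    rw [interior_Icc]; exact ⟨1 / 2, by norm_num, by norm_num⟩
  rw [Real.dimH_of_nonempty_interior h3]
  simp

lemma dimH_orb_le (b : ℕ) (x : ℝ) : dimH (orb b x) ≤ 1 := by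
  rw [← dimH_Icc]; exact dimH_mono (orb_sub b x)

/-- the block of `n` digits of `x` in base `b` after the place `m`, as an integer -/
noncomputable def wd (b : ℕ) (x : ℝ) (n m : ℕ) : ℤ := ⌊(b : ℝ) ^ n * Int.fract ((b : ℝ) ^ m * x)⌋

lemma wd_mem {b : ℕ} (hb : 2 ≤ b) (x : ℝ) (n m : ℕ) : wd b x n m ∈ Finset.Ico (0 : ℤ) ((b : ℤ) ^ n) := by
  have hb0 : (0 : ℝ) < b := by exact_mod_cast (by omega : 0 < b)
  rw [Finset.mem_Ico]
  constructor
  · exact Int.floor_nonneg.2 (mul_nonneg (by positivity) (Int.fract_nonneg _))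
  · unfold wd
    rw [Int.floor_lt]
    push_cast
    calc (b : ℝ) ^ n * Int.fract ((b : ℝ) ^ m * x) < (b : ℝ) ^ n * 1 :=
          mul_lt_mul_of_pos_left (Int.fract_lt_one _) (by positivity)
      _ = _ := mul_one _

lemma wd_split (b : ℕ) (x : ℝ) (k l m : ℕ) :
    wd b x (k + l) m = (b : ℤ) ^ l * wd b x k m + wd b x l (m + k) := by
  unfold wd
  set t : ℝ := Int.fract ((b : ℝ) ^ m * x) with ht
  have h1 : Int.fract ((b : ℝ) ^ (m + k) * x) = Int.fract ((b : ℝ) ^ k * t) := by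
    have : (b : ℝ) ^ (m + k) * x = (b : ℝ) ^ k * t + (((b : ℤ) ^ k * ⌊(b : ℝ) ^ m * x⌋ : ℤ) : ℝ) := by
      rw [ht, Int.fract]
      push_cast
      rw [pow_add]
      ring
    rw [this, Int.fract_add_intCast]
  rw [h1]
  have h2 : (b : ℝ) ^ (k + l) * t = (((b : ℤ) ^ l * ⌊(b : ℝ) ^ k * t⌋ : ℤ) : ℝ) +
      (b : ℝ) ^ l * Int.fract ((b : ℝ) ^ k * t) := by
    rw [Int.fract]
    push_cast
    rw [pow_add]
    ring
  rw [h2, Int.floor_intCast_add]

lemma finite_range_wd {b : ℕ} (hb : 2 ≤ b) (x : ℝ) (n : ℕ) : (Set.range (wd b x n)).Finite := by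
  refine (Finset.finite_toSet (Finset.Ico (0 : ℤ) ((b : ℤ) ^ n))).subset ?_
  rintro _ ⟨m, rfl⟩
  exact wd_mem hb x n m

/-- the blocks of length `n` -/
noncomputable def W {b : ℕ} (hb : 2 ≤ b) (x : ℝ) (n : ℕ) : Finset ℤ :=
  (finite_range_wd hb x n).toFinset

lemma mem_W {b : ℕ} (hb : 2 ≤ b) (x : ℝ) (n : ℕ) {z : ℤ} : z ∈ W hb x n ↔ ∃ m, wd b x n m = z := by
  unfold W
  rw [Set.Finite.mem_toFinset, Set.mem_range]

lemma card_W_le {b : ℕ} (hb : 2 ≤ b) (x : ℝ) (n : ℕ) : (W hb x n).card ≤ b ^ n := by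
  have h1 : W hb x n ⊆ Finset.Ico (0 : ℤ) ((b : ℤ) ^ n) := by
    intro z hz
    obtain ⟨m, rfl⟩ := (mem_W hb x n).1 hz
    exact wd_mem hb x n m
  have h2 := Finset.card_le_card h1
  rw [Int.card_Ico, sub_zero] at h2
  have h3 : ((b : ℤ) ^ n).toNat = b ^ n := by
    have : ((b : ℤ) ^ n) = ((b ^ n : ℕ) : ℤ) := by push_cast; rfl
    rw [this, Int.toNat_natCast]
  rwa [h3] at h2

/-- **The number of blocks.** The upper box dimension of an orbit closure is at most its Hausdorff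
dimension (Furstenberg). -/
theorem box {b : ℕ} (hb : 2 ≤ b) {x s : ℝ} (h : dimH (orb b x) < ENNReal.ofReal s) :
    ∃ C : ℝ, 0 < C ∧ ∀ n : ℕ, ((W hb x n).card : ℝ) ≤ C * (b : ℝ) ^ (n * s) := by
  classical
  have hbR : (2 : ℝ) ≤ b := by exact_mod_cast hb
  have hb0 : (0 : ℝ) < b := by linarith
  obtain ⟨s0, hs0, hs0s⟩ := ENNReal.lt_iff_exists_nnreal_btwn.1 h
  have hs0pos : 0 < (s0 : ℝ) := by
    have : (0 : ℝ≥0∞) < s0 := lt_of_le_of_lt bot_le hs0
    exact_mod_cast this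
  have hss : (s0 : ℝ) < s := by
    have h1 : ENNReal.ofReal (s0 : ℝ) < ENNReal.ofReal s := by
      rwa [ENNReal.ofReal_coe_nnreal]
    exact (ENNReal.ofReal_lt_ofReal_iff_of_nonneg hs0pos.le).1 h1
  have hs : 0 < s := hs0pos.trans hss
  have h0 : μH[(s0 : ℝ)] (orb b x) = 0 := hausdorffMeasure_of_dimH_lt hs0
  -- the scale
  set ε1 : ℝ := (1 / (2 * (2 * b) ^ s)) ^ (1 / (s - s0)) with hε1
  have hε1pos : 0 < ε1 := by positivity
  have hε1s : ε1 ^ (s - s0) = 1 / (2 * (2 * b) ^ s) := by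
    rw [hε1, ← Real.rpow_mul (by positivity), one_div_mul_cancel (by linarith), Real.rpow_one]
  set ε : ℝ := min ε1 (1 / (2 * b)) with hε
  have hεpos : 0 < ε := lt_min hε1pos (by positivity)
  obtain ⟨U, hU1, hU2, hU3⟩ := HDSum.finite_cover_of_hausdorff_zero (orb b x) (orb_compact b x) s0
    hs0pos h0 ε hεpos
  -- the lengths
  have hν : ∀ u : ℝ × ℝ, ∃ n : ℕ, u ∈ U → 1 ≤ n ∧ 2 * u.2 ≤ ((b : ℝ)⁻¹) ^ n ∧
      ((b : ℝ)⁻¹) ^ n ≤ 2 * b * u.2 := by
    intro u
    by_cases hu : u ∈ U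
    · obtain ⟨h1, h2⟩ := hU1 u hu
      have h3 : u.2 ≤ 1 / (2 * b) := h2.trans (min_le_right _ _)
      rw [le_div_iff₀ (by positivity)] at h3
      have h5 : (b : ℝ)⁻¹ < 1 := inv_lt_one_of_one_lt₀ (by linarith)
      have h3' : 2 * u.2 ≤ (b : ℝ)⁻¹ := by
        rw [le_inv_comm₀ (by positivity) (by positivity), le_inv_comm₀ (by positivity) (by positivity)]
        rw [← one_div, le_div_iff₀ hb0]
        linarith
      obtain ⟨n, hn1, hn2⟩ := exists_nat_pow_near_of_lt_one (x := 2 * u.2) (y := (b : ℝ)⁻¹)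
        (by positivity) (h3'.trans h5.le) (by positivity) h5
      refine ⟨n, fun _ => ⟨?_, hn2, ?_⟩⟩
      · by_contra hcon
        have : n = 0 := by omega
        subst this
        rw [zero_add, pow_one] at hn1
        linarith
      · have h6 : ((b : ℝ)⁻¹) ^ n = b * ((b : ℝ)⁻¹) ^ (n + 1) := by
          rw [pow_succ]; field_simp
        rw [h6]
        calc (b : ℝ) * ((b : ℝ)⁻¹) ^ (n + 1) ≤ b * (2 * u.2) := by gcongr
          _ = _ := by ring
    · exact ⟨0, fun h => absurd h hu⟩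
  choose ν hν using hν
  -- the sum
  have hsum : ∑ u ∈ U, 2 * (b : ℝ) ^ (-(ν u * s : ℝ)) ≤ 1 := by
    have h1 : ∀ u ∈ U, 2 * (b : ℝ) ^ (-(ν u * s : ℝ)) ≤ u.2 ^ (s0 : ℝ) := by
      intro u hu
      obtain ⟨h1, h2⟩ := hU1 u hu
      obtain ⟨-, -, h5⟩ := hν u hu
      have h6 : (b : ℝ) ^ (-(ν u * s : ℝ)) = (((b : ℝ)⁻¹) ^ ν u) ^ s := by
        rw [Real.rpow_neg hb0.le, inv_pow, Real.inv_rpow (by positivity), Real.rpow_mul hb0.le,
          Real.rpow_natCast]
      rw [h6]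
      have h7 : (((b : ℝ)⁻¹) ^ ν u) ^ s ≤ (2 * b * u.2) ^ s :=
        Real.rpow_le_rpow (by positivity) h5 hs.le
      have h8 : (2 * b * u.2) ^ s = (2 * b) ^ s * (u.2 ^ (s0 : ℝ) * u.2 ^ (s - s0)) := by
        rw [Real.mul_rpow (by positivity) h1.le, ← Real.rpow_add h1]
        congr 2
        ring
      have h9 : u.2 ^ (s - s0) ≤ 1 / (2 * (2 * b) ^ s) := by
        rw [← hε1s]
        exact Real.rpow_le_rpow h1.le (h2.trans (min_le_left _ _)) (by linarith)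
      calc 2 * (((b : ℝ)⁻¹) ^ ν u) ^ s ≤ 2 * ((2 * b) ^ s * (u.2 ^ (s0 : ℝ) * u.2 ^ (s - s0))) := by
            rw [← h8]; gcongr
        _ ≤ 2 * ((2 * b) ^ s * (u.2 ^ (s0 : ℝ) * (1 / (2 * (2 * b) ^ s)))) := by gcongr
        _ = u.2 ^ (s0 : ℝ) := by
            have : ((2 * b : ℝ)) ^ s ≠ 0 := by positivity
            field_simp
    exact (Finset.sum_le_sum h1).trans hU3
  -- the recursion
  have hrec : ∀ n : ℕ, (∀ u ∈ U, ν u ≤ n) →
      ((W hb x n).card : ℝ) ≤ ∑ u ∈ U, 2 * ((W hb x (n - ν u)).card : ℝ) := by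
    intro n hn
    have hsub : W hb x n ⊆ U.biUnion fun u =>
        (({⌊(b : ℝ) ^ ν u * (u.1 - u.2)⌋, ⌊(b : ℝ) ^ ν u * (u.1 - u.2)⌋ + 1} : Finset ℤ) ×ˢ
          W hb x (n - ν u)).image fun p => (b : ℤ) ^ (n - ν u) * p.1 + p.2 := by
      intro z hz
      obtain ⟨m, rfl⟩ := (mem_W hb x n).1 hz
      have he : Int.fract ((b : ℝ) ^ m * x) ∈ orb b x := subset_closure ⟨m, rfl⟩
      obtain ⟨u, hu, hdist⟩ := hU2 _ he
      obtain ⟨-, h4, -⟩ := hν u hu
      have hnu := hn u hu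
      rw [Finset.mem_biUnion]
      refine ⟨u, hu, ?_⟩
      rw [Finset.mem_image]
      refine ⟨(wd b x (ν u) m, wd b x (n - ν u) (m + ν u)), ?_, ?_⟩
      · rw [Finset.mem_product]
        refine ⟨?_, (mem_W hb x _).2 ⟨_, rfl⟩⟩
        simp only [Finset.mem_insert, Finset.mem_singleton]
        unfold wd
        set e : ℝ := Int.fract ((b : ℝ) ^ m * x) with hedef
        rw [abs_lt] at hdist
        have hbn : (0 : ℝ) < (b : ℝ) ^ ν u := by positivity
        have h7 : (b : ℝ) ^ ν u * (u.1 - u.2) ≤ (b : ℝ) ^ ν u * e :=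
          mul_le_mul_of_nonneg_left (by linarith) hbn.le
        have h8 : (b : ℝ) ^ ν u * e < (b : ℝ) ^ ν u * (u.1 - u.2) + 1 := by
          have h9 : (b : ℝ) ^ ν u * (2 * u.2) ≤ 1 := by
            rw [inv_pow] at h4
            calc (b : ℝ) ^ ν u * (2 * u.2) ≤ (b : ℝ) ^ ν u * ((b : ℝ) ^ ν u)⁻¹ := by gcongr
              _ = 1 := mul_inv_cancel₀ hbn.ne'
          have h10 : (b : ℝ) ^ ν u * e < (b : ℝ) ^ ν u * (u.1 + u.2) :=
            mul_lt_mul_of_pos_left (by linarith) hbn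
          nlinarith
        have h11 := Int.floor_le_floor h7
        have h12 : ⌊(b : ℝ) ^ ν u * e⌋ ≤ ⌊(b : ℝ) ^ ν u * (u.1 - u.2)⌋ + 1 := by
          have := Int.floor_le_floor h8.le
          rwa [Int.floor_add_one] at this
        omega
      · have := wd_split b x (ν u) (n - ν u) m
        rw [show ν u + (n - ν u) = n by omega] at this
        rw [this]
    have h1 := (Finset.card_le_card hsub).trans Finset.card_biUnion_le
    have h2 : ∀ u ∈ U, ((({⌊(b : ℝ) ^ ν u * (u.1 - u.2)⌋, ⌊(b : ℝ) ^ ν u * (u.1 - u.2)⌋ + 1} :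
        Finset ℤ) ×ˢ W hb x (n - ν u)).image fun p => (b : ℤ) ^ (n - ν u) * p.1 + p.2).card ≤
        2 * (W hb x (n - ν u)).card := by
      intro u _
      refine Finset.card_image_le.trans ?_
      rw [Finset.card_product]
      exact Nat.mul_le_mul_right _ Finset.card_le_two
    have h3 := h1.trans (Finset.sum_le_sum h2)
    exact_mod_cast h3
  -- the bound
  set n1 : ℕ := U.sup ν with hn1
  refine ⟨(b : ℝ) ^ n1, by positivity, fun n => ?_⟩
  induction n using Nat.strong_induction_on with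
  | _ n ih =>
    by_cases hn : n < n1
    · calc ((W hb x n).card : ℝ) ≤ ((b ^ n : ℕ) : ℝ) := by exact_mod_cast card_W_le hb x n
        _ = (b : ℝ) ^ n := by push_cast; rfl
        _ ≤ (b : ℝ) ^ n1 := pow_le_pow_right₀ (by linarith) hn.le
        _ = (b : ℝ) ^ n1 * 1 := (mul_one _).symm
        _ ≤ (b : ℝ) ^ n1 * (b : ℝ) ^ (n * s) := by
            apply mul_le_mul_of_nonneg_left _ (by positivity)
            exact Real.one_le_rpow (by linarith) (by positivity)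
    · have hle : ∀ u ∈ U, ν u ≤ n := fun u hu => (Finset.le_sup hu).trans (not_lt.1 hn)
      refine (hrec n hle).trans ?_
      have h1 : ∀ u ∈ U, 2 * ((W hb x (n - ν u)).card : ℝ) ≤
          (b : ℝ) ^ n1 * (b : ℝ) ^ (n * s) * (2 * (b : ℝ) ^ (-(ν u * s : ℝ))) := by
        intro u hu
        have h2 := hν u hu
        have h3 := hle u hu
        have h4 := ih (n - ν u) (by omega)
        have h5 : (((n - ν u : ℕ) : ℝ) * s) = n * s + -(ν u * s) := by
          rw [Nat.cast_sub h3]; ring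
        rw [h5, Real.rpow_add hb0] at h4
        calc 2 * ((W hb x (n - ν u)).card : ℝ) ≤
              2 * ((b : ℝ) ^ n1 * ((b : ℝ) ^ (n * s) * (b : ℝ) ^ (-(ν u * s)))) := by gcongr
          _ = _ := by ring
      refine (Finset.sum_le_sum h1).trans ?_
      rw [← Finset.mul_sum]
      calc (b : ℝ) ^ n1 * (b : ℝ) ^ (n * s) * ∑ u ∈ U, 2 * (b : ℝ) ^ (-(ν u * s : ℝ))
          ≤ (b : ℝ) ^ n1 * (b : ℝ) ^ (n * s) * 1 := by gcongr
        _ = _ := mul_one _

end Pool.Agent.K1H67.CO
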