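import Pool.Agent.K1H67.CO.Grp

/-!
# Countable sets of exceptions
-/

set_option autoImplicit false

open Finset Filter Topology Set
open scoped ENNReal

namespace Pool.Agent.K1H67.CO

/-- a set of real numbers is countable if it does not contain `r + 1` independent elements -/
theorem countable_of_dep {E : Set ℝ} {r : ℕ} (h : ∀ x : Fin (r + 1) → ℝ, (∀ i, x i ∈ E) →
    ¬ LinearIndependent ℚ (Fin.cons 1 (fun i : Fin r => x i.succ - x 0) : Fin (r + 1) → ℝ)) :
    E.Countable := by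
  classical
  rcases E.eq_empty_or_nonempty with rfl | ⟨x0, hx0⟩
  · exact countable_empty
  set F : Set ℝ := insert 1 ((fun y => y - x0) '' E) with hF
  have h1 : LinearIndepOn ℚ (id : ℝ → ℝ) {1} := (linearIndepOn_singleton_iff ℚ).2 one_ne_zero
  obtain ⟨B, hBF, h1B, hspan, hB⟩ := exists_linearIndepOn_id_extension (K := ℚ) h1
    (show ({1} : Set ℝ) ⊆ F from by rw [Set.singleton_subset_iff, hF]; exact mem_insert _ _)
  have h1B' : (1 : ℝ) ∈ B := h1B rfl
  have hfin : B.Finite := by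
    by_contra hinf
    have hinf2 : (B \ {1}).Infinite := Set.Infinite.sdiff hinf (Set.finite_singleton 1)
    obtain ⟨t, ht, htc⟩ := hinf2.exists_subset_card_eq r
    let e : Fin r ≃ t := (Finset.equivFinOfCardEq htc).symm
    let z : Fin r → ℝ := fun i => (e i : ℝ)
    have hz : ∀ i, z i ∈ B ∧ z i ≠ 1 := by
      intro i
      have := ht (Finset.mem_coe.2 (e i).2)
      exact ⟨this.1, fun h => this.2 h⟩
    have hzE : ∀ i, z i + x0 ∈ E := by
      intro i
      have h2 := hBF (hz i).1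
      rw [hF, Set.mem_insert_iff] at h2
      rcases h2 with h2 | ⟨y, hy, hyz⟩
      · exact absurd h2 (hz i).2
      · have : z i + x0 = y := by rw [← hyz]; ring
        rw [this]; exact hy
    refine h (Fin.cons x0 fun i => z i + x0) (fun i => ?_) ?_
    · refine Fin.cases ?_ (fun i => ?_) i
      · exact hx0
      · exact hzE i
    · simp only [Fin.cons_succ, Fin.cons_zero, add_sub_cancel_right]
      have hmem : ∀ i, (Fin.cons 1 z : Fin (r + 1) → ℝ) i ∈ B := by
        intro i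
        refine Fin.cases ?_ (fun i => ?_) i
        · exact h1B'
        · exact (hz i).1
      have hinj : Function.Injective (fun i => (⟨(Fin.cons 1 z : Fin (r + 1) → ℝ) i, hmem i⟩ : B)) := by
        intro i j hij
        have hij' : (Fin.cons 1 z : Fin (r + 1) → ℝ) i = (Fin.cons 1 z : Fin (r + 1) → ℝ) j :=
          congrArg Subtype.val hij
        revert hij'
        refine Fin.cases ?_ (fun i => ?_) i
        · refine Fin.cases (fun _ => rfl) (fun j => ?_) j
          intro h5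
          simp only [Fin.cons_zero, Fin.cons_succ] at h5
          exact absurd h5.symm (hz j).2
        · refine Fin.cases ?_ (fun j => ?_) j
          · intro h5
            simp only [Fin.cons_zero, Fin.cons_succ] at h5
            exact absurd h5 (hz i).2
          · intro h5
            simp only [Fin.cons_succ] at h5
            have h6 : e i = e j := Subtype.ext h5
            rw [e.injective h6]
      have h7 : LinearIndependent ℚ (fun x : B => (x : ℝ)) := hB
      exact h7.comp _ hinj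
  have : Finite B := hfin
  have : Fintype B := Fintype.ofFinite B
  have hcs : ((Submodule.span ℚ B : Submodule ℚ ℝ) : Set ℝ).Countable := by
    have : ((Submodule.span ℚ B : Submodule ℚ ℝ) : Set ℝ) ⊆
        Set.range (fun c : B → ℚ => ∑ i, c i • (i : ℝ)) := by
      intro v hv
      have h8 : B = Set.range (fun i : B => (i : ℝ)) := by simp
      rw [SetLike.mem_coe, h8] at hv
      exact (Submodule.mem_span_range_iff_exists_fun ℚ).1 hv
    exact (Set.countable_range _).mono this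
  refine (hcs.image fun v => v + x0).mono fun y hy => ?_
  refine ⟨y - x0, hspan (by rw [hF]; exact mem_insert_of_mem _ ⟨y, hy, rfl⟩), by ring⟩

lemma exists_ratio {b : ℕ} {x : ℝ} (h : dimH (orb b x) ≠ 1) :
    ∃ r : ℕ, dimH (orb b x) < (r : ℝ≥0∞) / (r + 1) := by
  have h1 : dimH (orb b x) < 1 := lt_of_le_of_ne (dimH_orb_le b x) h
  have h2 : Tendsto (fun r : ℕ => (r : ℝ) / (r + 1)) atTop (𝓝 1) := tendsto_natCast_div_add_atTop 1
  have hfin : dimH (orb b x) ≠ ⊤ := ne_top_of_lt h1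
  have h3 : (dimH (orb b x)).toReal < 1 := by
    have := (ENNReal.toReal_lt_toReal hfin ENNReal.one_ne_top).2 h1
    simpa using this
  obtain ⟨r, hr⟩ := (h2.eventually_const_lt h3).exists
  refine ⟨r, ?_⟩
  rw [← ENNReal.ofReal_toReal hfin]
  have h4 : (r : ℝ≥0∞) / (r + 1) = ENNReal.ofReal ((r : ℝ) / (r + 1)) := by
    rw [ENNReal.ofReal_div_of_pos (by positivity), ENNReal.ofReal_natCast,
      ENNReal.ofReal_add (by positivity) (by norm_num), ENNReal.ofReal_natCast, ENNReal.ofReal_one]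
  rw [h4]
  exact (ENNReal.ofReal_lt_ofReal_iff_of_nonneg ENNReal.toReal_nonneg).2 hr

lemma sum_lt {r : ℕ} {d : Fin (r + 1) → ℝ≥0∞} (h : ∀ i, d i < (r : ℝ≥0∞) / (r + 1)) :
    ∑ i, d i < r := by
  have hne : ((r : ℝ≥0∞) + 1) ≠ 0 := by simp
  have hnt : ((r : ℝ≥0∞) + 1) ≠ ⊤ := by
    exact_mod_cast ENNReal.natCast_ne_top (r + 1)
  have hq : (r : ℝ≥0∞) / (r + 1) ≠ ⊤ := by
    rw [Ne, ENNReal.div_eq_top]
    push Not
    exact ⟨fun _ => hne, fun h => absurd h (ENNReal.natCast_ne_top r)⟩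
  calc ∑ i, d i < ∑ _i : Fin (r + 1), (r : ℝ≥0∞) / (r + 1) := by
        refine ENNReal.sum_lt_sum_of_nonempty Finset.univ_nonempty fun i _ => h i
    _ = r := by
        rw [Finset.sum_const, Finset.card_univ, Fintype.card_fin, nsmul_eq_mul]
        push_cast
        exact ENNReal.mul_div_cancel hne hnt

/-- **Countably many exceptions.** -/
theorem countable_exceptions {P : ℕ → Prop} {G : Set ℝ}
    (h : ∀ b : ℕ, 2 ≤ b → P b → ∀ (r : ℕ) (x : Fin (r + 1) → ℝ), (∀ i, x i ∈ G) →
      LinearIndependent ℚ (Fin.cons 1 (fun i : Fin r => x i.succ - x 0) : Fin (r + 1) → ℝ) →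
      (r : ℝ≥0∞) ≤ ∑ i, dimH (orb b (x i))) :
    {x : ℝ | x ∈ G ∧ ∃ b : ℕ, 2 ≤ b ∧ P b ∧ dimH (orb b x) ≠ 1}.Countable := by
  have hsub : {x : ℝ | x ∈ G ∧ ∃ b : ℕ, 2 ≤ b ∧ P b ∧ dimH (orb b x) ≠ 1} ⊆
      ⋃ p : ℕ × ℕ, {x : ℝ | x ∈ G ∧ 2 ≤ p.1 ∧ P p.1 ∧
        dimH (orb p.1 x) < (p.2 : ℝ≥0∞) / (p.2 + 1)} := by
    rintro x ⟨hx, b, hb, hP, hd⟩
    obtain ⟨r, hr⟩ := exists_ratio hd
    exact mem_iUnion.2 ⟨(b, r), hx, hb, hP, hr⟩
  refine Set.Countable.mono hsub (Set.countable_iUnion fun p => ?_)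
  refine countable_of_dep (r := p.2) fun x hx hind => ?_
  have h1 := h p.1 (hx 0).2.1 (hx 0).2.2.1 p.2 x (fun i => (hx i).1) hind
  exact absurd h1 (not_le.2 (sum_lt fun i => (hx i).2.2.2))

/-- the exceptions in a coset -/
theorem coset_countable {a : ℕ} (ha : 2 ≤ a) {N : ℕ → ℕ} (hN : Tendsto N atTop atTop) (y : ℝ) :
    {x : ℝ | x - y ∈ Gr a N ∧ ∃ b : ℕ, 2 ≤ b ∧ Nat.Coprime a b ∧ dimH (orb b x) ≠ 1}.Countable :=
  countable_exceptions (P := fun b => Nat.Coprime a b) (G := {x | x - y ∈ Gr a N})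
    fun _ hb hab _ x hx hind => main_ineq ha hb hab hN y x hx hind

end Pool.Agent.K1H67.CO
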