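import Pool.Agent.K1H67.CO.Box

/-!
# The dimensions of the orbit closures of `x 0, …, x r` if the orbit of the differences is dense
-/

set_option autoImplicit false

open Finset Filter Topology Set MeasureTheory
open scoped ENNReal NNReal

namespace Pool.Agent.K1H67.CO

/-- blocks of a sum -/
lemma wd_add {b : ℕ} (y z : ℝ) (n m : ℕ) : ∃ ε ∈ ({0, 1} : Finset ℤ), ∃ t : ℤ,
    wd b (y + z) n m = wd b y n m + wd b z n m + ε + (b : ℤ) ^ n * t := by
  unfold wd
  set Y : ℝ := (b : ℝ) ^ m * y with hY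
  set Z : ℝ := (b : ℝ) ^ m * z with hZ
  have h0 : (b : ℝ) ^ m * (y + z) = Y + Z := by rw [hY, hZ]; ring
  rw [h0]
  -- the integer
  set t : ℤ := ⌊Y⌋ + ⌊Z⌋ - ⌊Y + Z⌋ with ht
  have h1 : Int.fract (Y + Z) = Int.fract Y + Int.fract Z + t := by
    rw [Int.fract, Int.fract, Int.fract, ht]
    push_cast
    ring
  have h2 : (b : ℝ) ^ n * Int.fract (Y + Z) =
      ((b : ℝ) ^ n * Int.fract Y + (b : ℝ) ^ n * Int.fract Z) + (((b : ℤ) ^ n * t : ℤ) : ℝ) := by
    rw [h1]; push_cast; ring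
  rw [h2, Int.floor_add_intCast]
  set P : ℝ := (b : ℝ) ^ n * Int.fract Y
  set Q : ℝ := (b : ℝ) ^ n * Int.fract Z
  refine ⟨⌊P + Q⌋ - ⌊P⌋ - ⌊Q⌋, ?_, t, by ring⟩
  have h3 := Int.le_floor_add P Q
  have h4 := Int.le_floor_add_floor P Q
  simp only [Finset.mem_insert, Finset.mem_singleton]
  omega

/-- **Counting.** -/
theorem count {b : ℕ} (hb : 2 ≤ b) {r : ℕ} (x : Fin (r + 1) → ℝ) (n : ℕ)
    (hc : ∀ k : Fin r → ℤ, (∀ i, k i ∈ Finset.Ico (0 : ℤ) ((b : ℤ) ^ n)) →
      ∃ m, ∀ i, wd b (x i.succ - x 0) n m = k i) :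
    (b ^ n) ^ r ≤ 2 ^ r * ∏ i, (W hb (x i) n).card := by
  classical
  set D : Finset (Fin r → ℤ) := Fintype.piFinset fun _ => Finset.Ico (0 : ℤ) ((b : ℤ) ^ n) with hD
  have hcardD : D.card = (b ^ n) ^ r := by
    rw [hD, Fintype.card_piFinset, Finset.prod_const, Int.card_Ico, sub_zero, Finset.card_univ,
      Fintype.card_fin]
    congr 1
  have hc' : ∀ k : Fin r → ℤ, ∃ m, k ∈ D → ∀ i, wd b (x i.succ - x 0) n m = k i := by
    intro k
    by_cases hk : k ∈ D
    · obtain ⟨m, hm⟩ := hc k (fun i => Fintype.mem_piFinset.1 hk i)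
      exact ⟨m, fun _ => hm⟩
    · exact ⟨0, fun h => absurd h hk⟩
  choose m hm using hc'
  have he : ∀ (k : Fin r → ℤ) (i : Fin r), ∃ ε ∈ ({0, 1} : Finset ℤ), ∃ t : ℤ,
      wd b (x i.succ) n (m k) = wd b (x 0) n (m k) + wd b (x i.succ - x 0) n (m k) + ε +
        (b : ℤ) ^ n * t := by
    intro k i
    have := wd_add (b := b) (x 0) (x i.succ - x 0) n (m k)
    rwa [add_sub_cancel] at this
  choose ε hε t ht using he
  set T : Finset ((Fin (r + 1) → ℤ) × (Fin r → ℤ)) :=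
    (Fintype.piFinset fun i => W hb (x i) n) ×ˢ (Fintype.piFinset fun _ => ({0, 1} : Finset ℤ))
    with hT
  have hcardT : T.card = (∏ i, (W hb (x i) n).card) * 2 ^ r := by
    rw [hT, Finset.card_product, Fintype.card_piFinset, Fintype.card_piFinset, Finset.prod_const,
      Finset.card_univ, Fintype.card_fin]
    congr 1
  have hle : D.card ≤ T.card := by
    refine Finset.card_le_card_of_injOn (fun k => (fun i => wd b (x i) n (m k), fun i => ε k i))
      ?_ ?_
    · intro k _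
      rw [Finset.mem_coe, hT, Finset.mem_product]
      refine ⟨Fintype.mem_piFinset.2 fun i => (mem_W hb _ _).2 ⟨_, rfl⟩,
        Fintype.mem_piFinset.2 fun i => hε k i⟩
    · intro k hk k' hk' heq
      rw [Finset.mem_coe] at hk hk'
      simp only [Prod.mk.injEq] at heq
      obtain ⟨h1, h2⟩ := heq
      funext i
      have e1 := ht k i
      have e2 := ht k' i
      rw [hm k hk i] at e1
      rw [hm k' hk' i] at e2
      have g1 : wd b (x i.succ) n (m k) = wd b (x i.succ) n (m k') := congrFun h1 i.succ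
      have g2 : wd b (x 0) n (m k) = wd b (x 0) n (m k') := congrFun h1 0
      have g3 : ε k i = ε k' i := congrFun h2 i
      have b1 := Finset.mem_Ico.1 (Fintype.mem_piFinset.1 hk i)
      have b2 := Finset.mem_Ico.1 (Fintype.mem_piFinset.1 hk' i)
      have e3 : k i - k' i = (b : ℤ) ^ n * (t k' i - t k i) := by
        rw [g1, g2, g3] at e1
        linarith
      have e4 : (b : ℤ) ^ n ∣ k i - k' i := ⟨_, e3⟩
      have e5 : |k i - k' i| < (b : ℤ) ^ n := by rw [abs_lt]; constructor <;> linarith [b1.1, b1.2, b2.1, b2.2]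
      have e6 := Int.eq_zero_of_abs_lt_dvd e4 e5
      linarith
  rw [hcardD, hcardT] at hle
  linarith

/-- **The inequality for dimensions.** -/
theorem dims {b : ℕ} (hb : 2 ≤ b) {r : ℕ} (x : Fin (r + 1) → ℝ)
    (hc : ∀ (n : ℕ) (k : Fin r → ℤ), (∀ i, k i ∈ Finset.Ico (0 : ℤ) ((b : ℤ) ^ n)) →
      ∃ m, ∀ i, wd b (x i.succ - x 0) n m = k i) :
    (r : ℝ≥0∞) ≤ ∑ i, dimH (orb b (x i)) := by
  classical
  have hbR : (2 : ℝ) ≤ b := by exact_mod_cast hb
  have hb0 : (0 : ℝ) < b := by linarith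
  by_contra hcon
  rw [not_le] at hcon
  have hfin : ∀ i, dimH (orb b (x i)) ≠ ⊤ := fun i =>
    ne_top_of_le_ne_top ENNReal.one_ne_top (dimH_orb_le b (x i))
  set d : Fin (r + 1) → ℝ := fun i => (dimH (orb b (x i))).toReal with hd
  have hd0 : ∀ i, 0 ≤ d i := fun i => ENNReal.toReal_nonneg
  have hdsum : ∑ i, d i < r := by
    have h1 : (∑ i, dimH (orb b (x i))).toReal < ((r : ℝ≥0∞)).toReal :=
      ENNReal.toReal_strict_mono (ENNReal.natCast_ne_top r) hcon
    rw [ENNReal.toReal_sum fun i _ => hfin i] at h1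
    simpa using h1
  -- exponents
  set η : ℝ := (r - ∑ i, d i) / (2 * (r + 1)) with hη
  have hη0 : 0 < η := by
    apply div_pos (by linarith)
    positivity
  have hlt : ∀ i, dimH (orb b (x i)) < ENNReal.ofReal (d i + η) := by
    intro i
    rw [← ENNReal.ofReal_toReal (hfin i)]
    exact (ENNReal.ofReal_lt_ofReal_iff (by have := hd0 i; linarith)).2 (by
      show d i < d i + η
      linarith)
  choose C hC0 hC using fun i => box hb (hlt i)
  set S : ℝ := ∑ i, (d i + η) with hS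
  have hSr : S < r := by
    have h1 : S = (∑ i, d i) + (r + 1) * η := by
      rw [hS, Finset.sum_add_distrib, Finset.sum_const, Finset.card_univ, Fintype.card_fin,
        nsmul_eq_mul]
      push_cast
      ring
    have h2 : ((r : ℝ) + 1) * η = (r - ∑ i, d i) / 2 := by
      rw [hη]; field_simp
    rw [h1, h2]
    linarith
  -- the counts
  have hbound : ∀ n : ℕ, ((b : ℝ) ^ ((r : ℝ) - S)) ^ n ≤ 2 ^ r * ∏ i, C i := by
    intro n
    have h1 := count hb x n (hc n)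
    have h2 : (((b ^ n) ^ r : ℕ) : ℝ) ≤ ((2 ^ r * ∏ i, (W hb (x i) n).card : ℕ) : ℝ) := by
      exact_mod_cast h1
    push_cast at h2
    have h3 : ∏ i, ((W hb (x i) n).card : ℝ) ≤ ∏ i, (C i * (b : ℝ) ^ (n * (d i + η))) :=
      Finset.prod_le_prod (fun i _ => Nat.cast_nonneg _) fun i _ => hC i n
    have h4 : ∏ i, (C i * (b : ℝ) ^ (n * (d i + η))) = (∏ i, C i) * (b : ℝ) ^ (n * S) := by
      rw [Finset.prod_mul_distrib, ← Real.rpow_sum_of_pos hb0, ← Finset.mul_sum]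
    rw [h4] at h3
    have h5 : ((b : ℝ) ^ n) ^ r = (b : ℝ) ^ (n * (r : ℝ)) := by
      rw [Real.rpow_mul hb0.le, Real.rpow_natCast, Real.rpow_natCast]
    rw [h5] at h2
    have h6 : ((b : ℝ) ^ ((r : ℝ) - S)) ^ n = (b : ℝ) ^ (n * (r : ℝ)) * ((b : ℝ) ^ (n * S))⁻¹ := by
      rw [← Real.rpow_natCast, ← Real.rpow_mul hb0.le, ← Real.rpow_neg hb0.le, ← Real.rpow_add hb0]
      congr 1
      ring
    rw [h6]
    have h7 : (0 : ℝ) < (b : ℝ) ^ (n * S) := by positivity
    rw [← div_eq_mul_inv, div_le_iff₀ h7]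
    calc (b : ℝ) ^ (n * (r : ℝ)) ≤ 2 ^ r * ∏ i, ((W hb (x i) n).card : ℝ) := h2
      _ ≤ 2 ^ r * ((∏ i, C i) * (b : ℝ) ^ (n * S)) := by gcongr
      _ = _ := by ring
  have hgt : 1 < (b : ℝ) ^ ((r : ℝ) - S) := Real.one_lt_rpow (by linarith) (by linarith)
  obtain ⟨n, hn⟩ := (tendsto_pow_atTop_atTop_of_one_lt hgt).eventually_gt_atTop (2 ^ r * ∏ i, C i)
    |>.exists
  exact absurd (hbound n) (not_le.2 hn)

end Pool.Agent.K1H67.CO
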