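import Pool.Agent.R501.FR3
import Pool.Agent.K1H67.SD.Grid

/-!
# Means of `e (b ^ m u)` over windows of times
-/

set_option autoImplicit false

open Finset Filter Topology

namespace Pool.Agent.K1H67.CO

open Pool.Agent.K1H67.SD (ee ee_add norm_ee ee_add_int sum_range_mul)

/-- sums over blocks made of progressions -/
lemma block {F : ℕ → ℂ} (hF : ∀ m, ‖F m‖ ≤ 1) {Δ T : ℕ} (hΔ : 0 < Δ) (hT : 0 < T) {κ : ℝ}
    (hκ : 0 ≤ κ) (h : ∀ m, ‖∑ t ∈ range T, F (m + Δ * t)‖ ≤ κ * T) (P : ℕ) :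
    ‖∑ l ∈ range P, F l‖ ≤ κ * P + Δ * T := by
  have hpos : 0 < Δ * T := Nat.mul_pos hΔ hT
  obtain ⟨q, ρ, hq, hP⟩ : ∃ q ρ : ℕ, ρ < Δ * T ∧ P = Δ * T * q + ρ :=
    ⟨P / (Δ * T), P % (Δ * T), Nat.mod_lt _ hpos, (Nat.div_add_mod P (Δ * T)).symm⟩
  have h1 : ∀ X : ℕ, ‖∑ m ∈ range (Δ * T), F (m + X)‖ ≤ κ * (Δ * T : ℕ) := by
    intro X
    rw [sum_range_mul (fun m => F (m + X)), Finset.sum_comm]
    calc ‖∑ r ∈ range Δ, ∑ t ∈ range T, F (r + Δ * t + X)‖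
        ≤ ∑ r ∈ range Δ, ‖∑ t ∈ range T, F (r + Δ * t + X)‖ := norm_sum_le _ _
      _ ≤ ∑ _r ∈ range Δ, κ * T := by
          refine Finset.sum_le_sum fun r _ => ?_
          have := h (r + X)
          have h2 : ∀ t, F (r + Δ * t + X) = F (r + X + Δ * t) := fun t => by congr 1; ring
          simp_rw [h2]
          exact this
      _ = κ * (Δ * T : ℕ) := by
          rw [Finset.sum_const, Finset.card_range, nsmul_eq_mul]; push_cast; ring
  have h2 : ‖∑ m ∈ range (Δ * T * q), F m‖ ≤ κ * (Δ * T * q : ℕ) := by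
    rw [sum_range_mul F (Δ * T) q]
    calc ‖∑ l ∈ range q, ∑ r ∈ range (Δ * T), F (r + Δ * T * l)‖
        ≤ ∑ l ∈ range q, ‖∑ r ∈ range (Δ * T), F (r + Δ * T * l)‖ := norm_sum_le _ _
      _ ≤ ∑ _l ∈ range q, κ * (Δ * T : ℕ) := Finset.sum_le_sum fun l _ => h1 _
      _ = κ * (Δ * T * q : ℕ) := by
          rw [Finset.sum_const, Finset.card_range, nsmul_eq_mul]; push_cast; ring
  have h3 : ‖∑ l ∈ range ρ, F (Δ * T * q + l)‖ ≤ ρ := by
    refine (norm_sum_le _ _).trans ?_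
    calc ∑ l ∈ range ρ, ‖F (Δ * T * q + l)‖ ≤ ∑ _l ∈ range ρ, (1 : ℝ) :=
          Finset.sum_le_sum fun l _ => hF _
      _ = ρ := by simp
  rw [hP, Finset.sum_range_add]
  refine (norm_add_le _ _).trans ?_
  have h4 : (ρ : ℝ) ≤ Δ * T := by exact_mod_cast hq.le
  have h5 : κ * ((Δ * T * q : ℕ) : ℝ) ≤ κ * ((Δ * T * q + ρ : ℕ) : ℝ) := by
    apply mul_le_mul_of_nonneg_left _ hκ
    push_cast
    have : (0 : ℝ) ≤ ρ := Nat.cast_nonneg _
    linarith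
  linarith

/-- **Windows.** -/
theorem window {a b : ℕ} (ha : 2 ≤ a) (hb : 2 ≤ b) (hab : Nat.Coprime a b) {Q : ℕ} (hQ : 1 ≤ Q)
    {ρ : ℝ} (hρ : 0 < ρ) {κ : ℝ} (hκ : 0 < κ) : ∃ K : ℕ, ∀ n : ℕ, K ≤ n → ∀ (c : ℤ) (m0 : ℕ),
      ¬ (a : ℤ) ∣ c → Q ≤ m0 → ∀ P : ℕ, (a : ℝ) ^ (ρ * n) ≤ P →
        ‖∑ l ∈ range P, ee ((b : ℝ) ^ (m0 + l) * (c / ((a ^ n * Q : ℕ) : ℝ)))‖ ≤ κ * P := by
  set κ1 : ℝ := min (κ / 2) 1 with hκ1
  have hκ1pos : 0 < κ1 := lt_min (by positivity) one_pos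
  have hκ11 : κ1 ≤ 1 := min_le_right _ _
  have hκ12 : 2 * κ1 ≤ κ := by
    have := min_le_left (κ / 2) 1
    rw [← hκ1] at this
    linarith
  obtain ⟨d, hd⟩ : ∃ d : ℕ, 4 / ρ ≤ d + 1 := by
    obtain ⟨d, hd⟩ := exists_nat_ge (4 / ρ)
    exact ⟨d, by linarith⟩
  obtain ⟨k, hk⟩ : ∃ k, k = d + 1 := ⟨_, rfl⟩
  have hkρ : 2 / ((k : ℝ) + 1) ≤ ρ / 2 := by
    rw [div_le_div_iff₀ (by positivity) (by norm_num)]
    rw [div_le_iff₀ hρ] at hd
    have : (k : ℝ) = d + 1 := by rw [hk]; push_cast; ring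
    rw [this]
    nlinarith
  have haR : (2 : ℝ) ≤ a := by exact_mod_cast ha
  have ha0 : (0 : ℝ) < a := by linarith
  have ha1 : (1 : ℝ) ≤ a := by linarith
  obtain ⟨L, hL1, hsum⟩ := Pool.Agent.R501.FR.sum_small κ1 hκ1pos hκ11 d
  obtain ⟨g, hg⟩ : ∃ g, g = (a ^ 2).totient := ⟨_, rfl⟩
  have hg0 : 0 < g := by rw [hg]; exact Nat.totient_pos.2 (by positivity)
  obtain ⟨A, hA⟩ : ∃ A, A = b ^ g - 1 := ⟨_, rfl⟩
  obtain ⟨n₀, D, hD, hn₀, hDQ, hper⟩ := Pool.Agent.R501.FR.period b (by omega) Q hQ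
  obtain ⟨R0, hR0⟩ : ∃ R0 : ℕ, L * 1 * A ^ k * D ^ k ≤ 2 ^ R0 :=
    ⟨L * 1 * A ^ k * D ^ k, (Nat.lt_two_pow_self).le⟩
  obtain ⟨N₂, hN₂⟩ := Pool.Agent.R501.FR.big a (ρ / 2) ((g * D * a * L * k.factorial) / κ1)
    (by linarith) (by positivity)
  refine ⟨N₂ + (k + 1) * (R0 + k + 2), fun n hn c m0 hc hm0 P hP => ?_⟩
  obtain ⟨r, hr⟩ : ∃ r, r = n / (k + 1) := ⟨_, rfl⟩
  have hr1 : (k + 1) * r ≤ n := by rw [hr]; exact Nat.mul_div_le n (k + 1)
  have hr2 : n < (k + 1) * (r + 1) := by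
    rw [hr]
    exact Nat.lt_mul_div_succ n (by omega)
  have hrk : R0 + k + 2 ≤ r := by
    rw [hr, Nat.le_div_iff_mul_le (by omega), mul_comm]
    omega
  obtain ⟨s, hs⟩ : ∃ s, s = r + 1 := ⟨_, rfl⟩
  have e1 : (k + 1) * r = k * r + r := by ring
  have e2 : k * s = k * r + k := by rw [hs]; ring
  have e3 : (k + 1) * (r + 1) = k * r + k + r + 1 := by ring
  have e4 : (k + 1) * s = k * r + k + r + 1 := by rw [hs]; ring
  have hnR : (0 : ℝ) ≤ n := Nat.cast_nonneg n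
  have hrR' : (r : ℝ) ≤ n / (k + 1) := by
    rw [le_div_iff₀ (by positivity)]
    have : (((k + 1) * r : ℕ) : ℝ) ≤ n := by exact_mod_cast hr1
    push_cast at this
    linarith
  have hsize : L * 1 * A ^ k * D ^ k ≤ 2 ^ (n - 1 - k * s) :=
    hR0.trans (Nat.pow_le_pow_right (by norm_num) (by omega))
  obtain ⟨T, hT⟩ : ∃ T, T = L * (k.factorial * a ^ (n - k * s)) := ⟨_, rfl⟩
  have hT1 : 1 ≤ T := by
    rw [hT]
    exact Nat.mul_pos hL1 (Nat.mul_pos (Nat.factorial_pos _) (by positivity))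
  -- the periods
  have hdvd' : ∀ l : ℕ, Q ∣ b ^ (m0 + l) * (b ^ (g * D) - 1) := by
    intro l
    have h1 : Q ∣ b ^ n₀ * (b ^ (g * D) - 1) := by
      refine hper.trans (Nat.mul_dvd_mul_left _ ?_)
      have := Nat.sub_dvd_pow_sub_pow (b ^ D) 1 g
      rwa [one_pow, ← pow_mul, mul_comm D g] at this
    refine h1.trans (Nat.mul_dvd_mul_right (pow_dvd_pow b ?_) _)
    omega
  have hΔ : 0 < g * D * a ^ s := by positivity
  have hblock := block (F := fun l => ee ((b : ℝ) ^ (m0 + l) * (c / ((a ^ n * Q : ℕ) : ℝ))))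
    (fun m => (norm_ee _).le) hΔ hT1 hκ1pos.le (fun l => by
      have h2 := hsum a b n s D 1 T (m0 + l) Q c ha hb hab hD hQ (by rw [← hk]; omega)
        (by
          have : (d + 2) * s = (k + 1) * s := by rw [hk]
          rw [this]; omega) (by rw [← hk, ← hg, ← hA]; exact hsize) (by rw [← hk, hT]) hc
        (by rw [← hg]; exact hdvd' l) 1 le_rfl le_rfl
      rw [← hg] at h2
      simp only [Nat.cast_one, one_mul] at h2
      have h3 : ∀ t : ℕ, m0 + (l + g * D * a ^ s * t) = m0 + l + g * D * a ^ s * t := fun t => by ring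
      simp_rw [h3]
      exact h2) P
  refine hblock.trans ?_
  -- the length
  have hTle : (T : ℝ) ≤ L * k.factorial * (a : ℝ) ^ r := by
    rw [hT]
    push_cast
    rw [← mul_assoc]
    apply mul_le_mul_of_nonneg_left _ (by positivity)
    exact pow_le_pow_right₀ ha1 (by omega)
  have h6 : ((g * D * a ^ s : ℕ) : ℝ) * T ≤ κ1 * P := by
    have h7 : ((g * D * a ^ s : ℕ) : ℝ) * T ≤ (g * D * a * L * k.factorial) * (a : ℝ) ^ (r + r) := by
      push_cast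
      rw [hs]
      calc (g : ℝ) * D * (a : ℝ) ^ (r + 1) * T ≤ (g : ℝ) * D * (a : ℝ) ^ (r + 1) *
            (L * k.factorial * (a : ℝ) ^ r) := by gcongr
        _ = _ := by rw [pow_succ, pow_add]; ring
    have h8 : (a : ℝ) ^ (r + r) ≤ (a : ℝ) ^ (ρ / 2 * n) := by
      rw [← Real.rpow_natCast]
      apply Real.rpow_le_rpow_of_exponent_le ha1
      push_cast
      calc (r : ℝ) + r ≤ 2 * (n / (k + 1)) := by linarith
        _ = 2 / ((k : ℝ) + 1) * n := by ring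
        _ ≤ ρ / 2 * n := mul_le_mul_of_nonneg_right hkρ hnR
    have h9 := hN₂ n (by omega)
    rw [div_le_iff₀ hκ1pos] at h9
    calc ((g * D * a ^ s : ℕ) : ℝ) * T ≤ (g * D * a * L * k.factorial) * (a : ℝ) ^ (r + r) := h7
      _ ≤ ((a : ℝ) ^ (ρ / 2 * n) * κ1) * (a : ℝ) ^ (ρ / 2 * n) :=
          mul_le_mul h9 h8 (by positivity) (by positivity)
      _ = κ1 * (a : ℝ) ^ (ρ * n) := by
          rw [mul_right_comm, ← Real.rpow_add ha0]
          ring_nf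
      _ ≤ κ1 * P := by gcongr
  have hP0 : (0 : ℝ) ≤ P := Nat.cast_nonneg _
  nlinarith

lemma norm_ee_sub_le (s t : ℝ) : ‖ee s - ee t‖ ≤ 2 * Real.pi * |s - t| := by
  have h1 : ee s - ee t = ee t * (ee (s - t) - 1) := by
    rw [mul_sub, ← ee_add, mul_one]
    congr 2
    ring
  rw [h1, norm_mul, norm_ee, one_mul]
  have h2 := Real.norm_exp_I_mul_ofReal_sub_one_le (x := 2 * Real.pi * (s - t))
  have h3 : ee (s - t) = Complex.exp (Complex.I * ((2 * Real.pi * (s - t) : ℝ) : ℂ)) := by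
    unfold ee
    congr 1
    push_cast
    ring
  rw [h3]
  refine h2.trans (le_of_eq ?_)
  rw [Real.norm_eq_abs, abs_mul, abs_of_nonneg (by positivity : (0 : ℝ) ≤ 2 * Real.pi)]

/-- the error is small -/
lemma tail_small {a b : ℕ} (ha : 2 ≤ a) (hb : 2 ≤ b) (e : ℕ) {ρ : ℝ} (hρ : 0 < ρ) (C : ℝ) {ε : ℝ}
    (hε : 0 < ε) : ∀ᶠ n : ℕ in atTop,
      C * (b : ℝ) ^ ((e + 1) * n + (⌊(a : ℝ) ^ (ρ / 2 * n)⌋₊ + 1)) *
        Real.exp (-(a : ℝ) ^ (ρ * n)) ≤ ε := by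
  have haR : (2 : ℝ) ≤ a := by exact_mod_cast ha
  have ha0 : (0 : ℝ) < a := by linarith
  have hbR : (2 : ℝ) ≤ b := by exact_mod_cast hb
  have hb0 : (0 : ℝ) < b := by linarith
  set θ : ℝ := (a : ℝ) ^ (ρ / 2) with hθ
  have hθ1 : 1 < θ := Real.one_lt_rpow (by linarith) (by positivity)
  have hE : ∀ n : ℕ, (a : ℝ) ^ (ρ / 2 * n) = θ ^ n := by
    intro n
    rw [hθ, ← Real.rpow_natCast, ← Real.rpow_mul ha0.le]
  have hEE : ∀ n : ℕ, (a : ℝ) ^ (ρ * n) = θ ^ n * θ ^ n := by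
    intro n
    rw [← hE, ← Real.rpow_add ha0]
    congr 1
    ring
  have hlin : ∀ᶠ n : ℕ in atTop, (n : ℝ) ≤ θ ^ n := by
    have h1 := tendsto_pow_const_div_const_pow_of_one_lt 1 hθ1
    have h2 := h1.eventually_le_const (show (0 : ℝ) < 1 by norm_num)
    filter_upwards [h2] with n hn
    rw [div_le_one (by positivity), pow_one] at hn
    exact hn
  have hlb : 0 ≤ Real.log b := Real.log_nonneg (by linarith)
  set M : ℝ := (e + 3) * Real.log b + 1 + |Real.log (ε / (|C| + 1))| with hM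
  have hbig := (tendsto_pow_atTop_atTop_of_one_lt hθ1).eventually_ge_atTop (max M 1)
  filter_upwards [hlin, hbig] with n h1 h2
  have h3 : M ≤ θ ^ n := (le_max_left _ _).trans h2
  have h4 : 1 ≤ θ ^ n := (le_max_right _ _).trans h2
  rw [hE, hEE]
  set E : ℝ := θ ^ n with hEdef
  have hE0 : 0 < E := by linarith
  have h5 : (((e + 1) * n + (⌊E⌋₊ + 1) : ℕ) : ℝ) ≤ (e + 3) * E := by
    push_cast
    have := Nat.floor_le hE0.le
    have he : (0 : ℝ) ≤ e := Nat.cast_nonneg _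
    nlinarith
  have h6 : (b : ℝ) ^ ((e + 1) * n + (⌊E⌋₊ + 1)) ≤ Real.exp ((e + 3) * E * Real.log b) := by
    rw [← Real.rpow_natCast, Real.rpow_def_of_pos hb0]
    apply Real.exp_le_exp.2
    rw [mul_comm]
    exact mul_le_mul_of_nonneg_right h5 hlb
  have hC1 : C ≤ |C| + 1 := by linarith [le_abs_self C]
  have hC0 : 0 < |C| + 1 := by positivity
  calc C * (b : ℝ) ^ ((e + 1) * n + (⌊E⌋₊ + 1)) * Real.exp (-(E * E))
      ≤ (|C| + 1) * Real.exp ((e + 3) * E * Real.log b) * Real.exp (-(E * E)) := by gcongr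
    _ = (|C| + 1) * Real.exp ((e + 3) * E * Real.log b - E * E) := by
        rw [mul_assoc, ← Real.exp_add]; congr 2
    _ ≤ (|C| + 1) * Real.exp (Real.log (ε / (|C| + 1))) := by
        apply mul_le_mul_of_nonneg_left _ hC0.le
        apply Real.exp_le_exp.2
        have h7 := neg_abs_le (Real.log (ε / (|C| + 1)))
        have h8 := abs_nonneg (Real.log (ε / (|C| + 1)))
        have h9 : (e + 3) * Real.log b + 1 + |Real.log (ε / (|C| + 1))| ≤ E := h3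
        nlinarith
    _ = ε := by
        rw [Real.exp_log (by positivity)]
        field_simp

end Pool.Agent.K1H67.CO
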