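import Pool.Agent.K1H67.CO.Tor
import Pool.Agent.K1H67.CO.Win

/-!
# Numbers with long periodic runs of digits: joint distribution of the orbits under `b`
-/

set_option autoImplicit false

open Finset Filter Topology
open scoped ENNReal

namespace Pool.Agent.K1H67.CO

open Pool.Agent.K1H67.SD (ee ee_add norm_ee ee_add_int)

/-- **Weyl sums over windows.** -/
theorem sums_tendsto {a a₁ a₂ b e : ℕ} (haa : a = a₁ * a₂) (ha₁ : 2 ≤ a₁)
    (hb : 2 ≤ b) (hab : Nat.Coprime a₁ b) (hdvd : a₂ ∣ b ^ e) {N : ℕ → ℕ}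
    (hN : Tendsto N atTop atTop) {ρ : ℝ} (hρ : 0 < ρ) {u : ℝ} {Q : ℕ} (hQ : 1 ≤ Q) {C : ℝ}
    (happ : ∀ K : ℕ, ∀ᶠ j in atTop, ∃ A : ℤ,
      |(Q : ℝ) * (a : ℝ) ^ N j * u - A| ≤ C * Real.exp (-(a : ℝ) ^ (ρ * N j)) ∧
        ¬ (a₁ : ℤ) ^ N j ∣ (a₁ : ℤ) ^ K * A) :
    Tendsto (fun j => (∑ l ∈ range (⌊(a : ℝ) ^ (ρ / 2 * N j)⌋₊ + 1),
      ee ((b : ℝ) ^ ((e + 1) * N j + l) * u)) / ((⌊(a : ℝ) ^ (ρ / 2 * N j)⌋₊ + 1 : ℕ) : ℂ))
      atTop (𝓝 0) := by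
  obtain ⟨f, hf⟩ := hdvd
  have hbe : 0 < b ^ e := pow_pos (by omega) e
  have ha₂ : 0 < a₂ := Nat.pos_of_ne_zero (by rintro rfl; simp at hf; omega)
  have hf0 : 0 < f := Nat.pos_of_ne_zero (by rintro rfl; simp at hf; omega)
  have ha : 2 ≤ a := by
    rw [haa]; exact ha₁.trans (Nat.le_mul_of_pos_right _ ha₂)
  have haR : (2 : ℝ) ≤ a := by exact_mod_cast ha
  have ha0 : (0 : ℝ) < a := by linarith
  have ha₁R : (2 : ℝ) ≤ a₁ := by exact_mod_cast ha₁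
  have ha₁0 : (0 : ℝ) < a₁ := by linarith
  have ha₁a : (a₁ : ℝ) ≤ a := by
    have : a₁ ≤ a := by rw [haa]; exact Nat.le_mul_of_pos_right _ ha₂
    exact_mod_cast this
  have ha₂0 : (0 : ℝ) < a₂ := by exact_mod_cast ha₂
  have hbR : (2 : ℝ) ≤ b := by exact_mod_cast hb
  have hb0 : (0 : ℝ) < b := by linarith
  have hQ0 : (0 : ℝ) < Q := by exact_mod_cast hQ
  have hQ1 : (1 : ℝ) ≤ Q := by exact_mod_cast hQ
  have hcopf : IsCoprime (a₁ : ℤ) (f : ℤ) := by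
    rw [Nat.isCoprime_iff_coprime]
    have h1 : Nat.Coprime a₁ (b ^ e) := Nat.Coprime.pow_right e hab
    rw [hf] at h1
    exact h1.coprime_mul_left_right
  rw [Metric.tendsto_nhds]
  intro ε hε
  obtain ⟨K, hK⟩ := window ha₁ hb hab hQ (show 0 < ρ / 2 by positivity)
    (show 0 < ε / 3 by positivity)
  have htail := tail_small ha hb e hρ (2 * Real.pi * C) (show 0 < ε / 3 by positivity)
  filter_upwards [happ K, hN.eventually htail, hN.eventually_ge_atTop Q] with j hA htl hNQ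
  obtain ⟨A, hA1, hA2⟩ := hA
  rw [dist_zero_right]
  set n : ℕ := N j with hn
  set P : ℕ := ⌊(a : ℝ) ^ (ρ / 2 * n)⌋₊ + 1 with hP
  have hPpos : (0 : ℝ) < P := by rw [hP]; positivity
  have hPge : (a : ℝ) ^ (ρ / 2 * n) ≤ P := by
    rw [hP]; push_cast; exact (Nat.lt_floor_add_one _).le
  have hCe : 0 ≤ C * Real.exp (-(a : ℝ) ^ (ρ * n)) := (abs_nonneg _).trans hA1
  -- the approximating fraction
  have hA0 : A ≠ 0 := by
    rintro rfl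
    apply hA2
    simp
  set A' : ℤ := (f : ℤ) ^ n * A with hA'
  have hA'0 : A' ≠ 0 := mul_ne_zero (pow_ne_zero _ (by exact_mod_cast hf0.ne')) hA0
  have hfin : FiniteMultiplicity (a₁ : ℤ) A' :=
    Int.finiteMultiplicity_iff.2 ⟨by rw [Int.natAbs_natCast]; omega, hA'0⟩
  obtain ⟨c, hc1, hc2⟩ := hfin.exists_eq_pow_mul_and_not_dvd
  set v : ℕ := multiplicity (a₁ : ℤ) A' with hv
  have hvn : v + K < n := by
    by_contra hcon
    push Not at hcon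
    apply hA2
    have h1 : (a₁ : ℤ) ^ n ∣ (f : ℤ) ^ n * ((a₁ : ℤ) ^ K * A) := by
      have h2 : (f : ℤ) ^ n * ((a₁ : ℤ) ^ K * A) = (a₁ : ℤ) ^ (v + K) * c := by
        rw [pow_add]
        calc (f : ℤ) ^ n * ((a₁ : ℤ) ^ K * A) = (a₁ : ℤ) ^ K * A' := by rw [hA']; ring
          _ = _ := by rw [hc1]; ring
      rw [h2]
      exact (pow_dvd_pow _ hcon).mul_right _
    exact (IsCoprime.pow (m := n) (n := n) hcopf).dvd_of_dvd_mul_left h1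
  set n' : ℕ := n - v with hn'
  have hKn' : K ≤ n' := by omega
  have hw := hK n' hKn' c n hc2 hNQ P (by
    refine le_trans ?_ hPge
    calc (a₁ : ℝ) ^ (ρ / 2 * (n' : ℝ)) ≤ (a : ℝ) ^ (ρ / 2 * (n' : ℝ)) :=
          Real.rpow_le_rpow ha₁0.le ha₁a (by positivity)
      _ ≤ (a : ℝ) ^ (ρ / 2 * n) := by
          apply Real.rpow_le_rpow_of_exponent_le (by linarith)
          apply mul_le_mul_of_nonneg_left _ (by positivity)
          exact_mod_cast (show n' ≤ n by omega))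
  -- the approximation
  have harg : ∀ l : ℕ, (b : ℝ) ^ ((e + 1) * n + l) * (A / (Q * (a : ℝ) ^ n)) =
      (b : ℝ) ^ (n + l) * (c / ((a₁ ^ n' * Q : ℕ) : ℝ)) := by
    intro l
    have h1 : (b : ℝ) ^ ((e + 1) * n + l) = (b : ℝ) ^ (n + l) * ((a₂ : ℝ) ^ n * (f : ℝ) ^ n) := by
      rw [← mul_pow]
      have h2 : (a₂ : ℝ) * f = (b : ℝ) ^ e := by
        have : ((b ^ e : ℕ) : ℝ) = ((a₂ * f : ℕ) : ℝ) := by rw [hf]
        push_cast at this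
        exact this.symm
      rw [h2, ← pow_mul, ← pow_add]
      congr 1
      ring
    have h3 : (f : ℝ) ^ n * A = (a₁ : ℝ) ^ v * c := by
      have : ((A' : ℤ) : ℝ) = (((a₁ : ℤ) ^ v * c : ℤ) : ℝ) := by rw [hc1]
      rw [hA'] at this
      push_cast at this
      exact this
    have h4 : (a : ℝ) ^ n = (a₁ : ℝ) ^ n' * (a₁ : ℝ) ^ v * (a₂ : ℝ) ^ n := by
      rw [← pow_add, show n' + v = n by omega, ← mul_pow, haa]
      push_cast
      rfl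
    rw [h1, h4]
    push_cast
    have hne1 : (a₂ : ℝ) ^ n ≠ 0 := by positivity
    have hne2 : (a₁ : ℝ) ^ n' ≠ 0 := by positivity
    have hne3 : (a₁ : ℝ) ^ v ≠ 0 := by positivity
    have hne4 : (Q : ℝ) ≠ 0 := hQ0.ne'
    have h5 : (b : ℝ) ^ (n + l) * ((a₂ : ℝ) ^ n * (f : ℝ) ^ n) *
        (A / (Q * ((a₁ : ℝ) ^ n' * (a₁ : ℝ) ^ v * (a₂ : ℝ) ^ n))) =
        (b : ℝ) ^ (n + l) * ((f : ℝ) ^ n * A) * (a₂ : ℝ) ^ n /
          (Q * ((a₁ : ℝ) ^ n' * (a₁ : ℝ) ^ v * (a₂ : ℝ) ^ n)) := by ring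
    rw [h5, h3]
    field_simp
  have hdiff : ∀ l ∈ range P, ‖ee ((b : ℝ) ^ ((e + 1) * n + l) * u) -
      ee ((b : ℝ) ^ ((e + 1) * n + l) * (A / (Q * (a : ℝ) ^ n)))‖ ≤ ε / 3 := by
    intro l hl
    rw [Finset.mem_range] at hl
    refine (norm_ee_sub_le _ _).trans ?_
    have h1 : (b : ℝ) ^ ((e + 1) * n + l) * u - (b : ℝ) ^ ((e + 1) * n + l) *
        (A / (Q * (a : ℝ) ^ n)) = (b : ℝ) ^ ((e + 1) * n + l) *
        (((Q : ℝ) * (a : ℝ) ^ n * u - A) / (Q * (a : ℝ) ^ n)) := by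
      field_simp
    rw [h1, abs_mul, abs_div, abs_of_pos (by positivity : (0 : ℝ) < (b : ℝ) ^ ((e + 1) * n + l)),
      abs_of_pos (by positivity : (0 : ℝ) < (Q : ℝ) * (a : ℝ) ^ n)]
    have h2 : |(Q : ℝ) * (a : ℝ) ^ n * u - A| / ((Q : ℝ) * (a : ℝ) ^ n) ≤
        C * Real.exp (-(a : ℝ) ^ (ρ * n)) := by
      refine (div_le_self (abs_nonneg _) ?_).trans hA1
      have : (1 : ℝ) ≤ (a : ℝ) ^ n := one_le_pow₀ (by linarith)
      nlinarith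
    have h3 : (b : ℝ) ^ ((e + 1) * n + l) ≤ (b : ℝ) ^ ((e + 1) * n + P) :=
      pow_le_pow_right₀ (by linarith) (by omega)
    calc 2 * Real.pi * ((b : ℝ) ^ ((e + 1) * n + l) *
          (|(Q : ℝ) * (a : ℝ) ^ n * u - A| / ((Q : ℝ) * (a : ℝ) ^ n)))
        ≤ 2 * Real.pi * ((b : ℝ) ^ ((e + 1) * n + P) * (C * Real.exp (-(a : ℝ) ^ (ρ * n)))) := by
          gcongr
      _ = 2 * Real.pi * C * (b : ℝ) ^ ((e + 1) * n + P) * Real.exp (-(a : ℝ) ^ (ρ * n)) := by ring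
      _ ≤ ε / 3 := htl
  have hsum : ‖∑ l ∈ range P, ee ((b : ℝ) ^ ((e + 1) * n + l) * u)‖ ≤ ε / 3 * P + ε / 3 * P := by
    have h1 : ∑ l ∈ range P, ee ((b : ℝ) ^ ((e + 1) * n + l) * u) =
        ∑ l ∈ range P, (ee ((b : ℝ) ^ ((e + 1) * n + l) * u) -
          ee ((b : ℝ) ^ ((e + 1) * n + l) * (A / (Q * (a : ℝ) ^ n)))) +
        ∑ l ∈ range P, ee ((b : ℝ) ^ (n + l) * (c / ((a₁ ^ n' * Q : ℕ) : ℝ))) := by
      rw [← Finset.sum_add_distrib]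
      refine Finset.sum_congr rfl fun l _ => ?_
      rw [← harg l]
      ring
    rw [h1]
    refine (norm_add_le _ _).trans (add_le_add ?_ hw)
    calc ‖∑ l ∈ range P, (ee ((b : ℝ) ^ ((e + 1) * n + l) * u) -
          ee ((b : ℝ) ^ ((e + 1) * n + l) * (A / (Q * (a : ℝ) ^ n))))‖
        ≤ ∑ _l ∈ range P, ε / 3 := norm_sum_le_of_le _ hdiff
      _ = ε / 3 * P := by rw [Finset.sum_const, Finset.card_range, nsmul_eq_mul, mul_comm]
  rw [norm_div, Complex.norm_natCast, div_lt_iff₀ hPpos]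
  refine hsum.trans_lt ?_
  nlinarith

/-- the numbers with long periodic runs of digits after the places `N j` in base `a` -/
def Gr (a : ℕ) (N : ℕ → ℕ) : Set ℝ := {z | ∃ (Q : ℕ) (ρ : ℝ), 1 ≤ Q ∧ 0 < ρ ∧
  ∀ᶠ j in atTop, ∃ A : ℤ, |(Q : ℝ) * (a : ℝ) ^ N j * z - A| ≤ Real.exp (-(a : ℝ) ^ (ρ * N j))}

/-- integer combinations -/
theorem comb {a : ℕ} (ha : 2 ≤ a) {N : ℕ → ℕ} {r : ℕ} (z : Fin r → ℝ) (hz : ∀ i, z i ∈ Gr a N) :
    ∃ (Q : ℕ) (ρ : ℝ), 1 ≤ Q ∧ 0 < ρ ∧ ∀ k : Fin r → ℤ, ∃ C : ℝ, ∀ᶠ j in atTop, ∃ A : ℤ,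
      |(Q : ℝ) * (a : ℝ) ^ N j * (∑ i, k i * z i) - A| ≤
        C * Real.exp (-(a : ℝ) ^ (ρ * N j)) := by
  have haR : (2 : ℝ) ≤ a := by exact_mod_cast ha
  choose q ρ hq hρ hA using hz
  set s : ℝ := 1 + ∑ i, 1 / ρ i with hs
  have hs1 : 1 ≤ s := by
    rw [hs]
    have : 0 ≤ ∑ i, 1 / ρ i := Finset.sum_nonneg fun i _ => (one_div_pos.2 (hρ i)).le
    linarith
  have hsρ : ∀ i, 1 / s ≤ ρ i := by
    intro i
    have h1 : 1 / ρ i ≤ s := by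
      have h2 : 1 / ρ i ≤ ∑ i, 1 / ρ i :=
        Finset.single_le_sum (f := fun i => 1 / ρ i) (fun i _ => (one_div_pos.2 (hρ i)).le)
          (Finset.mem_univ i)
      rw [hs]; linarith
    rw [one_div_le (by linarith) (hρ i)]
    exact h1
  refine ⟨∏ i, q i, 1 / s, Nat.one_le_iff_ne_zero.2 (Finset.prod_ne_zero_iff.2 fun i _ => by
    have := hq i; omega), by positivity, fun k => ?_⟩
  refine ⟨∑ i, |(k i : ℝ)| * (∏ i, q i : ℕ), ?_⟩
  have hall : ∀ᶠ j in atTop, ∀ i, ∃ A : ℤ, |(q i : ℝ) * (a : ℝ) ^ N j * z i - A| ≤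
      Real.exp (-(a : ℝ) ^ (ρ i * N j)) := eventually_all.2 hA
  filter_upwards [hall] with j hj
  choose A hA using hj
  have hd : ∀ i, ∃ t : ℕ, ∏ i, q i = q i * t := fun i => Finset.dvd_prod_of_mem q (Finset.mem_univ i)
  choose t ht using hd
  refine ⟨∑ i, k i * t i * A i, ?_⟩
  have h1 : ((∏ i, q i : ℕ) : ℝ) * (a : ℝ) ^ N j * (∑ i, k i * z i) - ((∑ i, k i * t i * A i : ℤ) : ℝ) =
      ∑ i, (k i : ℝ) * t i * ((q i : ℝ) * (a : ℝ) ^ N j * z i - A i) := by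
    push_cast
    rw [Finset.mul_sum, ← Finset.sum_sub_distrib]
    refine Finset.sum_congr rfl fun i _ => ?_
    have h2 : ((∏ i, q i : ℕ) : ℝ) = q i * t i := by rw [ht i]; push_cast; ring
    push_cast at h2
    rw [h2]
    ring
  rw [h1, Finset.sum_mul]
  refine (Finset.abs_sum_le_sum_abs _ _).trans (Finset.sum_le_sum fun i _ => ?_)
  rw [abs_mul, abs_mul]
  have h3 : (t i : ℝ) ≤ (∏ i, q i : ℕ) := by
    have : t i ≤ ∏ i, q i := by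
      rw [ht i]; exact Nat.le_mul_of_pos_left _ (hq i)
    exact_mod_cast this
  have h4 : |(t i : ℝ)| = t i := abs_of_nonneg (Nat.cast_nonneg _)
  rw [h4]
  have h5 : Real.exp (-(a : ℝ) ^ (ρ i * N j)) ≤ Real.exp (-(a : ℝ) ^ (1 / s * N j)) := by
    apply Real.exp_le_exp.2
    apply neg_le_neg
    apply Real.rpow_le_rpow_of_exponent_le (by linarith)
    exact mul_le_mul_of_nonneg_right (hsρ i) (Nat.cast_nonneg _)
  calc |(k i : ℝ)| * t i * |(q i : ℝ) * (a : ℝ) ^ N j * z i - A i|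
      ≤ |(k i : ℝ)| * (∏ i, q i : ℕ) * Real.exp (-(a : ℝ) ^ (ρ i * N j)) := by
        gcongr
        exact hA i
    _ ≤ _ := by gcongr

lemma int_of_close {t : ℝ} (h : ∀ ε > 0, ∃ B : ℤ, |t - B| < ε) : ∃ B : ℤ, t = B := by
  refine ⟨round t, ?_⟩
  by_contra hne
  have h1 : 0 < |t - round t| := abs_pos.2 (sub_ne_zero.2 hne)
  obtain ⟨B, hB⟩ := h _ h1
  exact absurd (round_le t B) (not_le.2 hB)

lemma exp_small {a : ℕ} (ha : 2 ≤ a) {N : ℕ → ℕ} (hN : Tendsto N atTop atTop) {ρ : ℝ} (hρ : 0 < ρ)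
    (C : ℝ) {ε : ℝ} (hε : 0 < ε) :
    ∀ᶠ j in atTop, C * Real.exp (-(a : ℝ) ^ (ρ * N j)) < ε := by
  have haR : (2 : ℝ) ≤ a := by exact_mod_cast ha
  have ha0 : (0 : ℝ) < a := by linarith
  have h1 : Tendsto (fun j => (a : ℝ) ^ (ρ * N j)) atTop atTop := by
    have h2 : 1 < (a : ℝ) ^ ρ := Real.one_lt_rpow (by linarith) hρ
    refine ((tendsto_pow_atTop_atTop_of_one_lt h2).comp hN).congr fun j => ?_
    simp only [Function.comp]
    rw [← Real.rpow_natCast, ← Real.rpow_mul ha0.le]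
  have h3 : Tendsto (fun j => C * Real.exp (-(a : ℝ) ^ (ρ * N j))) atTop (𝓝 (C * 0)) :=
    (Real.tendsto_exp_neg_atTop_nhds_zero.comp h1).const_mul C
  rw [mul_zero] at h3
  exact h3.eventually_lt_const hε

/-- irrational numbers have generic approximations -/
theorem generic_of_irrational {a : ℕ} (ha : 2 ≤ a) {N : ℕ → ℕ} (hN : Tendsto N atTop atTop) {ρ : ℝ}
    (hρ : 0 < ρ) {u : ℝ} (hu : Irrational u) {Q : ℕ} (hQ : 1 ≤ Q) {C : ℝ}
    (happ : ∀ᶠ j in atTop, ∃ A : ℤ,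
      |(Q : ℝ) * (a : ℝ) ^ N j * u - A| ≤ C * Real.exp (-(a : ℝ) ^ (ρ * N j))) (K : ℕ) :
    ∀ᶠ j in atTop, ∃ A : ℤ,
      |(Q : ℝ) * (a : ℝ) ^ N j * u - A| ≤ C * Real.exp (-(a : ℝ) ^ (ρ * N j)) ∧
        ¬ (a : ℤ) ^ N j ∣ (a : ℤ) ^ K * A := by
  have haR : (2 : ℝ) ≤ a := by exact_mod_cast ha
  have ha0 : (0 : ℝ) < a := by linarith
  by_contra hcon
  rw [Filter.not_eventually] at hcon
  have hint : ∃ B : ℤ, (Q : ℝ) * (a : ℝ) ^ K * u = B := by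
    refine int_of_close fun ε hε => ?_
    obtain ⟨j, hj1, hj2, hj3⟩ :=
      (hcon.and_eventually (happ.and (exp_small ha hN hρ ((a : ℝ) ^ K * C) hε))).exists
    obtain ⟨A, hA⟩ := hj2
    have hdvd : (a : ℤ) ^ N j ∣ (a : ℤ) ^ K * A := by
      by_contra h
      exact hj1 ⟨A, hA, h⟩
    obtain ⟨B, hB⟩ := hdvd
    refine ⟨B, ?_⟩
    have h1 : (1 : ℝ) ≤ (a : ℝ) ^ N j := one_le_pow₀ (by linarith)
    have h2 : (a : ℝ) ^ N j * ((Q : ℝ) * (a : ℝ) ^ K * u - B) =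
        (a : ℝ) ^ K * ((Q : ℝ) * (a : ℝ) ^ N j * u - A) := by
      have h3 : (a : ℝ) ^ K * A = (a : ℝ) ^ N j * B := by exact_mod_cast hB
      linear_combination h3
    have h4 : |(Q : ℝ) * (a : ℝ) ^ K * u - B| ≤
        |(a : ℝ) ^ N j * ((Q : ℝ) * (a : ℝ) ^ K * u - B)| := by
      rw [abs_mul, abs_of_pos (by positivity : (0 : ℝ) < (a : ℝ) ^ N j)]
      exact le_mul_of_one_le_left (abs_nonneg _) h1
    refine h4.trans_lt ?_
    rw [h2, abs_mul, abs_of_pos (by positivity : (0 : ℝ) < (a : ℝ) ^ K)]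
    refine lt_of_le_of_lt ?_ hj3
    calc (a : ℝ) ^ K * |(Q : ℝ) * (a : ℝ) ^ N j * u - A|
        ≤ (a : ℝ) ^ K * (C * Real.exp (-(a : ℝ) ^ (ρ * N j))) := by gcongr
      _ = _ := by ring
  obtain ⟨B, hB⟩ := hint
  apply hu
  have hne : (Q : ℝ) * (a : ℝ) ^ K ≠ 0 := by
    have : (0 : ℝ) < Q := by exact_mod_cast hQ
    positivity
  refine ⟨(B : ℚ) / ((Q : ℚ) * (a : ℚ) ^ K), ?_⟩
  push_cast
  rw [div_eq_iff hne]
  linarith

/-- independence -/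
lemma irrational_of_independent {r : ℕ} {v : Fin r → ℝ}
    (h : LinearIndependent ℚ (Fin.cons 1 v : Fin (r + 1) → ℝ)) {k : Fin r → ℤ} (hk : k ≠ 0) :
    Irrational (∑ i, k i * v i) := by
  rintro ⟨q, hq⟩
  apply hk
  rw [Fintype.linearIndependent_iff] at h
  have h1 := h (Fin.cons (-q) fun i => (k i : ℚ)) (by
    rw [Fin.sum_univ_succ]
    simp only [Fin.cons_zero, Fin.cons_succ, Rat.smul_def, mul_one]
    push_cast
    rw [hq]
    ring)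
  funext i
  have h2 := h1 i.succ
  simp only [Fin.cons_succ] at h2
  exact_mod_cast h2

/-- **The inequality for the orbit closures of the elements of a coset.** -/
theorem main_ineq {a b : ℕ} (ha : 2 ≤ a) (hb : 2 ≤ b) (hab : Nat.Coprime a b) {N : ℕ → ℕ}
    (hN : Tendsto N atTop atTop) (y : ℝ) {r : ℕ} (x : Fin (r + 1) → ℝ)
    (hx : ∀ i, x i - y ∈ Gr a N)
    (hind : LinearIndependent ℚ (Fin.cons 1 (fun i : Fin r => x i.succ - x 0) : Fin (r + 1) → ℝ)) :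
    (r : ℝ≥0∞) ≤ ∑ i, dimH (orb b (x i)) := by
  obtain ⟨Q, ρ, hQ, hρ, hcomb⟩ := comb ha (fun i => x i - y) hx
  refine dims_of_sums hb x (fun j => (0 + 1) * N j) (fun j => ⌊(a : ℝ) ^ (ρ / 2 * N j)⌋₊ + 1)
    (fun j => Nat.succ_pos _) fun k hk => ?_
  have hirr := irrational_of_independent hind hk
  obtain ⟨C, hC⟩ := hcomb (Fin.cons (-∑ i, k i) k)
  have hsum : ∑ i, ((Fin.cons (-∑ i, k i) k : Fin (r + 1) → ℤ) i : ℝ) * (x i - y) =
      ∑ i, (k i : ℝ) * (x i.succ - x 0) := by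
    rw [Fin.sum_univ_succ]
    simp only [Fin.cons_zero, Fin.cons_succ]
    push_cast
    rw [neg_mul, Finset.sum_mul, neg_add_eq_sub, ← Finset.sum_sub_distrib]
    refine Finset.sum_congr rfl fun i _ => ?_
    ring
  rw [hsum] at hC
  have h1 := fun K => generic_of_irrational ha hN hρ hirr hQ hC K
  exact sums_tendsto (a₂ := 1) (e := 0) (mul_one a).symm ha hb hab (one_dvd _) hN hρ hQ h1

end Pool.Agent.K1H67.CO
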