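import Pool.Agent.K1H67.CO.Upper

/-!
# The inequality for the dimensions is sharp
-/

set_option autoImplicit false

open Finset Filter Topology Set MeasureTheory
open scoped ENNReal NNReal

namespace Pool.Agent.K1H67.CO

/-- an integer with prescribed zero digits of its sums with given integers -/
lemma exists_Y {b : ℕ} (hb : 2 ≤ b) (Z : ℕ → ℤ) (κ : ℕ) :
    ∃ Y : ℤ, ∀ j < κ, ((Y + Z j) / (b : ℤ) ^ j) % b = 0 := by
  have hb0 : (b : ℤ) ≠ 0 := by exact_mod_cast (by omega : b ≠ 0)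
  induction κ with
  | zero => exact ⟨0, fun j hj => by omega⟩
  | succ κ ih =>
    obtain ⟨Y, hY⟩ := ih
    refine ⟨Y + (-((Y + Z κ) / (b : ℤ) ^ κ)) * (b : ℤ) ^ κ, fun j hj => ?_⟩
    set c : ℤ := -((Y + Z κ) / (b : ℤ) ^ κ) with hc
    have hbj : (b : ℤ) ^ j ≠ 0 := pow_ne_zero _ hb0
    rcases Nat.lt_succ_iff_lt_or_eq.1 hj with h | h
    · have e1 : Y + c * (b : ℤ) ^ κ + Z j = (Y + Z j) + (c * (b : ℤ) ^ (κ - j)) * (b : ℤ) ^ j := by
        rw [mul_assoc, ← pow_add, show κ - j + j = κ by omega]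
        ring
      rw [e1, Int.add_mul_ediv_right _ _ hbj]
      obtain ⟨l, hl⟩ : ∃ l, κ - j = l + 1 := ⟨κ - j - 1, by omega⟩
      rw [hl, pow_succ, ← mul_assoc, Int.add_mul_emod_self_right]
      exact hY j h
    · subst h
      have e1 : Y + c * (b : ℤ) ^ j + Z j = (Y + Z j) + c * (b : ℤ) ^ j := by ring
      rw [e1, Int.add_mul_ediv_right _ _ hbj, hc, add_neg_cancel]
      simp

/-- the numbers whose digit number `j + 1` is zero (closed version) -/
def Fz (b j : ℕ) : Set ℝ := {t | ∃ q : ℤ, (q : ℝ) ≤ (b : ℝ) ^ j * t ∧ (b : ℝ) ^ j * t ≤ q + 1 / b}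

lemma isClosed_Fz (b j : ℕ) : IsClosed (Fz b j) := by
  have h1 : Fz b j = (fun t : ℝ => (((b : ℝ) ^ j * t : ℝ) : UnitAddCircle)) ⁻¹'
      ((fun s : ℝ => (s : UnitAddCircle)) '' Icc 0 (1 / b)) := by
    ext t
    rw [Set.mem_preimage]
    constructor
    · rintro ⟨q, hq1, hq2⟩
      refine ⟨(b : ℝ) ^ j * t - q, ⟨by linarith, by linarith⟩, ?_⟩
      simp only
      rw [AddCircle.coe_sub, sub_eq_self, AddCircle.coe_eq_zero_iff]
      exact ⟨q, by simp⟩
    · rintro ⟨s, ⟨hs1, hs2⟩, hs3⟩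
      simp only at hs3
      have h2 : (((b : ℝ) ^ j * t - s : ℝ) : UnitAddCircle) = 0 := by
        rw [AddCircle.coe_sub, hs3, sub_self]
      rw [AddCircle.coe_eq_zero_iff] at h2
      obtain ⟨q, hq⟩ := h2
      rw [zsmul_eq_mul, mul_one] at hq
      exact ⟨q, by linarith, by linarith⟩
  rw [h1]
  refine IsClosed.preimage ?_ ?_
  · exact (AddCircle.continuous_mk' (1 : ℝ)).comp (continuous_const.mul continuous_id)
  · exact (isCompact_Icc.image (AddCircle.continuous_mk' (1 : ℝ))).isClosed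

lemma Fz_add_int {b j : ℕ} {t : ℝ} (h : t ∈ Fz b j) (k : ℤ) : t + k ∈ Fz b j := by
  obtain ⟨q, hq1, hq2⟩ := h
  refine ⟨q + (b : ℤ) ^ j * k, ?_, ?_⟩
  · push_cast
    rw [mul_add]
    linarith
  · push_cast
    rw [mul_add]
    linarith

/-- **The point.** -/
theorem exists_point {b : ℕ} (hb : 2 ≤ b) (R : ℕ) (z : ℕ → ℝ) :
    ∃ y : ℝ, ∀ j : ℕ, y + z (j % R) ∈ Fz b j := by
  have hbR : (2 : ℝ) ≤ b := by exact_mod_cast hb
  have hb0 : (0 : ℝ) < b := by linarith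
  have hbZ : (0 : ℤ) < b := by exact_mod_cast (by omega : 0 < b)
  -- finite expansions
  have hfin : ∀ K : ℕ, ∃ y ∈ Icc (0 : ℝ) 1, ∀ j < K,
      y + ⌊(b : ℝ) ^ K * z (j % R)⌋ / (b : ℝ) ^ K ∈ Fz b j := by
    intro K
    obtain ⟨Y, hY⟩ := exists_Y hb (fun κ => ⌊(b : ℝ) ^ K * z ((K - 1 - κ) % R)⌋) K
    refine ⟨Int.fract ((Y : ℝ) / (b : ℝ) ^ K), ⟨Int.fract_nonneg _, (Int.fract_lt_one _).le⟩,
      fun j hj => ?_⟩
    set Z : ℤ := ⌊(b : ℝ) ^ K * z (j % R)⌋ with hZ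
    have h1 := hY (K - 1 - j) (by omega)
    rw [show K - 1 - (K - 1 - j) = j by omega] at h1
    have h2 : Int.fract ((Y : ℝ) / (b : ℝ) ^ K) + (Z : ℝ) / (b : ℝ) ^ K =
        ((Y + Z : ℤ) : ℝ) / (b : ℝ) ^ K + ((-⌊(Y : ℝ) / (b : ℝ) ^ K⌋ : ℤ) : ℝ) := by
      rw [Int.fract]
      push_cast
      ring
    rw [h2]
    refine Fz_add_int ?_ _
    set κ : ℕ := K - 1 - j with hκ
    have hKj : K = j + (κ + 1) := by omega
    set q : ℤ := (Y + Z) / (b : ℤ) ^ κ with hq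
    obtain ⟨q', hq'⟩ : (b : ℤ) ∣ q := Int.dvd_of_emod_eq_zero h1
    have hbκ : (0 : ℤ) < (b : ℤ) ^ κ := pow_pos hbZ κ
    have h3 : (b : ℤ) ^ κ * q + (Y + Z) % (b : ℤ) ^ κ = Y + Z := Int.mul_ediv_add_emod _ _
    have h4 := Int.emod_nonneg (Y + Z) hbκ.ne'
    have h5 := Int.emod_lt_of_pos (Y + Z) hbκ
    set s : ℤ := (Y + Z) % (b : ℤ) ^ κ with hs
    have h6 : (b : ℝ) ^ j * (((Y + Z : ℤ) : ℝ) / (b : ℝ) ^ K) = q' + s / (b : ℝ) ^ (κ + 1) := by
      rw [← h3, hq', hKj]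
      push_cast
      have hne : (b : ℝ) ≠ 0 := hb0.ne'
      rw [pow_add, pow_succ]
      field_simp
    have hs0 : (0 : ℝ) ≤ s := by exact_mod_cast h4
    have hs1 : (s : ℝ) ≤ (b : ℝ) ^ κ := by
      have : (s : ℝ) < (((b : ℤ) ^ κ : ℤ) : ℝ) := by exact_mod_cast h5
      push_cast at this
      exact this.le
    refine ⟨q', ?_, ?_⟩
    · rw [h6]
      have : 0 ≤ (s : ℝ) / (b : ℝ) ^ (κ + 1) := by positivity
      linarith
    · rw [h6]
      have : (s : ℝ) / (b : ℝ) ^ (κ + 1) ≤ 1 / b := by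
        rw [div_le_div_iff₀ (by positivity) hb0, one_mul, pow_succ]
        exact mul_le_mul_of_nonneg_right hs1 hb0.le
      linarith
  choose Y hY1 hY2 using hfin
  obtain ⟨y, -, φ, hφ, hlim⟩ := isCompact_Icc.tendsto_subseq hY1
  refine ⟨y, fun j => ?_⟩
  set w : ℝ := z (j % R) with hw
  have herr : Tendsto (fun K : ℕ => (⌊(b : ℝ) ^ K * w⌋ : ℝ) / (b : ℝ) ^ K) atTop (𝓝 w) := by
    have h1 : ∀ K : ℕ, |(⌊(b : ℝ) ^ K * w⌋ : ℝ) / (b : ℝ) ^ K - w| ≤ ((b : ℝ)⁻¹) ^ K := by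
      intro K
      have hbK : (0 : ℝ) < (b : ℝ) ^ K := by positivity
      have h2 := Int.floor_le ((b : ℝ) ^ K * w)
      have h3 := Int.lt_floor_add_one ((b : ℝ) ^ K * w)
      have h4 : (⌊(b : ℝ) ^ K * w⌋ : ℝ) / (b : ℝ) ^ K - w =
          ((⌊(b : ℝ) ^ K * w⌋ : ℝ) - (b : ℝ) ^ K * w) / (b : ℝ) ^ K := by
        field_simp
      rw [h4, abs_div, abs_of_pos hbK, inv_pow, ← one_div]
      apply div_le_div_of_nonneg_right _ hbK.le
      rw [abs_le]
      constructor <;> linarith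
    have h5 := tendsto_pow_atTop_nhds_zero_of_lt_one (by positivity : (0 : ℝ) ≤ (b : ℝ)⁻¹)
      (inv_lt_one_of_one_lt₀ (by linarith))
    rw [tendsto_iff_norm_sub_tendsto_zero]
    refine squeeze_zero (fun K => norm_nonneg _) (fun K => ?_) h5
    rw [Real.norm_eq_abs]
    exact h1 K
  have hlim2 : Tendsto (fun k : ℕ => (Y ∘ φ) k + (⌊(b : ℝ) ^ φ k * w⌋ : ℝ) / (b : ℝ) ^ φ k) atTop
      (𝓝 (y + w)) := hlim.add (herr.comp hφ.tendsto_atTop)
  refine (isClosed_Fz b j).mem_of_tendsto hlim2 ?_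
  filter_upwards [eventually_gt_atTop j] with k hk
  exact hY2 (φ k) j (lt_of_lt_of_le hk (hφ.le_apply))

lemma card_W_mul {b : ℕ} (hb : 2 ≤ b) (x : ℝ) (n : ℕ) :
    (W hb x n).card ≤ (W hb x 1).card ^ n := by
  classical
  induction n with
  | zero =>
    have := card_W_le hb x 0
    simpa using this
  | succ n ih =>
    have hsub : W hb x (n + 1) ⊆ (W hb x 1 ×ˢ W hb x n).image
        fun p => (b : ℤ) ^ n * p.1 + p.2 := by
      intro w hw
      obtain ⟨m, rfl⟩ := (mem_W hb _ _).1 hw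
      rw [Finset.mem_image]
      refine ⟨(wd b x 1 m, wd b x n (m + 1)), ?_, ?_⟩
      · rw [Finset.mem_product]
        exact ⟨(mem_W hb _ _).2 ⟨m, rfl⟩, (mem_W hb _ _).2 ⟨_, rfl⟩⟩
      · have := wd_split b x 1 n m
        rw [add_comm 1 n] at this
        rw [this]
    refine (Finset.card_le_card hsub).trans (Finset.card_image_le.trans ?_)
    rw [Finset.card_product, pow_succ, mul_comm]
    exact Nat.mul_le_mul_right _ ih

/-- few digits -/
lemma dimH_le_of_digits {B : ℕ} (hB : 2 ≤ B) {x s : ℝ} (h : ((W hB x 1).card : ℝ) ≤ (B : ℝ) ^ s) :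
    dimH (orb B x) ≤ ENNReal.ofReal s := by
  refine dimH_le_of_count hB (C := 1) fun n => ?_
  have hB0 : (0 : ℝ) < B := by exact_mod_cast (by omega : 0 < B)
  calc ((W hB x n).card : ℝ) ≤ (((W hB x 1).card ^ n : ℕ) : ℝ) := by exact_mod_cast card_W_mul hB x n
    _ = ((W hB x 1).card : ℝ) ^ n := by push_cast; rfl
    _ ≤ ((B : ℝ) ^ s) ^ n := by gcongr
    _ = 1 * (B : ℝ) ^ (n * s) := by
        rw [one_mul, ← Real.rpow_natCast, ← Real.rpow_mul hB0.le, mul_comm s]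

lemma orb_sub_union {b R : ℕ} (hR : 0 < R) (x : ℝ) :
    orb b x ⊆ ⋃ c : Fin R, orb (b ^ R) ((b : ℝ) ^ (c : ℕ) * x) := by
  have hcl : IsClosed (⋃ c : Fin R, orb (b ^ R) ((b : ℝ) ^ (c : ℕ) * x)) :=
    isClosed_iUnion_of_finite fun c => isClosed_closure
  refine closure_minimal ?_ hcl
  rintro _ ⟨m, rfl⟩
  refine mem_iUnion.2 ⟨⟨m % R, Nat.mod_lt _ hR⟩, subset_closure ⟨m / R, ?_⟩⟩
  simp only
  congr 1
  push_cast
  rw [← pow_mul, ← mul_assoc, ← pow_add, Nat.div_add_mod]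

/-- **Few blocks.** -/
theorem dimH_le_of_Fz {b : ℕ} (hb : 2 ≤ b) {R : ℕ} (hR : 0 < R) {x : ℝ} {i : ℕ} (hi : i < R)
    (h : ∀ j : ℕ, j % R = i → x ∈ Fz b j) :
    dimH (orb b x) ≤ ENNReal.ofReal ((R - 1 : ℝ) / R) := by
  classical
  have hbR : (2 : ℝ) ≤ b := by exact_mod_cast hb
  have hb0 : (0 : ℝ) < b := by linarith
  have hbinv : 1 / (b : ℝ) < 1 := by rw [div_lt_one hb0]; linarith
  by_cases hrat : ∃ j : ℕ, ∃ q : ℤ, (b : ℝ) ^ j * x = q
  · -- a finite orbit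
    obtain ⟨j, q, hq⟩ := hrat
    have hfin : (Set.range fun m : ℕ => Int.fract ((b : ℝ) ^ m * x)).Finite := by
      refine ((Set.finite_Iio j).image (fun m : ℕ => Int.fract ((b : ℝ) ^ m * x))).union
        (Set.finite_singleton (0 : ℝ)) |>.subset ?_
      rintro _ ⟨m, rfl⟩
      by_cases hm : m < j
      · exact Or.inl ⟨m, hm, rfl⟩
      · right
        rw [Set.mem_singleton_iff]
        have : (b : ℝ) ^ m * x = (((b : ℤ) ^ (m - j) * q : ℤ) : ℝ) := by
          push_cast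
          rw [← hq, ← mul_assoc, ← pow_add]
          congr 2
          omega
        simp only
        rw [this, Int.fract_intCast]
    unfold orb
    rw [hfin.isClosed.closure_eq, hfin.dimH_zero]
    exact bot_le
  · push Not at hrat
    -- the digits are zero
    have hdig : ∀ j : ℕ, j % R = i → wd b x 1 j = 0 := by
      intro j hj
      obtain ⟨q, hq1, hq2⟩ := h j hj
      have hfr : Int.fract ((b : ℝ) ^ j * x) = (b : ℝ) ^ j * x - q := by
        rw [Int.fract_eq_iff]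
        exact ⟨by linarith, by linarith, q, by ring⟩
      have hne : (b : ℝ) ^ j * x ≠ q + 1 / b := by
        intro heq
        refine hrat (j + 1) (b * q + 1) ?_
        rw [pow_succ, mul_comm ((b : ℝ) ^ j), mul_assoc, heq]
        push_cast
        field_simp
      have hlt : (b : ℝ) ^ j * x < q + 1 / b := lt_of_le_of_ne hq2 hne
      unfold wd
      rw [hfr, pow_one, Int.floor_eq_zero_iff]
      constructor
      · exact mul_nonneg hb0.le (by linarith)
      · calc (b : ℝ) * ((b : ℝ) ^ j * x - q) < b * (1 / b) :=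
              mul_lt_mul_of_pos_left (by linarith) hb0
          _ = 1 := by field_simp
    have hB : 2 ≤ b ^ R := hb.trans (Nat.le_self_pow hR.ne' b)
    refine (dimH_mono (orb_sub_union hR x)).trans ?_
    rw [dimH_iUnion]
    refine iSup_le fun c => dimH_le_of_digits hB ?_
    -- the offset
    set o : ℕ := (i + R - c) % R with ho
    have hoR : o < R := Nat.mod_lt _ hR
    have hco : ∀ q : ℕ, ((c : ℕ) + R * q + o) % R = i := by
      intro q
      rw [ho, Nat.add_mod_mod, show (c : ℕ) + R * q + (i + R - c) = i + R * (q + 1) by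
        have := c.2
        rw [Nat.mul_succ]
        omega, Nat.add_mul_mod_self_left]
      exact Nat.mod_eq_of_lt hi
    have hwd : ∀ q : ℕ, wd (b ^ R) ((b : ℝ) ^ (c : ℕ) * x) 1 q = wd b x R (c + R * q) := by
      intro q
      unfold wd
      congr 1
      push_cast
      rw [pow_one]
      congr 2
      rw [← pow_mul, ← mul_assoc, ← pow_add, add_comm]
    have hsub : W hB ((b : ℝ) ^ (c : ℕ) * x) 1 ⊆
        (Finset.Ico (0 : ℤ) ((b : ℤ) ^ o) ×ˢ Finset.Ico (0 : ℤ) ((b : ℤ) ^ (R - 1 - o))).image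
          fun p => (b : ℤ) ^ (R - o) * p.1 + p.2 := by
      intro w hw
      obtain ⟨q, rfl⟩ := (mem_W hB _ _).1 hw
      rw [hwd, Finset.mem_image]
      refine ⟨(wd b x o (c + R * q), wd b x (R - 1 - o) (c + R * q + o + 1)), ?_, ?_⟩
      · rw [Finset.mem_product]
        exact ⟨wd_mem hb _ _ _, wd_mem hb _ _ _⟩
      · have e1 := wd_split b x o (1 + (R - 1 - o)) (c + R * q)
        have e2 := wd_split b x 1 (R - 1 - o) (c + R * q + o)
        rw [hdig _ (hco q), mul_zero, zero_add] at e2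
        rw [e2] at e1
        rw [show o + (1 + (R - 1 - o)) = R by omega, show 1 + (R - 1 - o) = R - o by omega] at e1
        exact e1.symm
    have hcard : (W hB ((b : ℝ) ^ (c : ℕ) * x) 1).card ≤ b ^ (R - 1) := by
      refine (Finset.card_le_card hsub).trans (Finset.card_image_le.trans ?_)
      have hto : ∀ l : ℕ, ((b : ℤ) ^ l).toNat = b ^ l := by
        intro l
        have : ((b : ℤ) ^ l) = ((b ^ l : ℕ) : ℤ) := by push_cast; rfl
        rw [this, Int.toNat_natCast]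
      rw [Finset.card_product, Int.card_Ico, Int.card_Ico, sub_zero, sub_zero, hto, hto, ← pow_add]
      exact Nat.pow_le_pow_right (by omega) (by omega)
    have hRR : (0 : ℝ) < R := by exact_mod_cast hR
    calc ((W hB ((b : ℝ) ^ (c : ℕ) * x) 1).card : ℝ) ≤ ((b ^ (R - 1) : ℕ) : ℝ) := by
          exact_mod_cast hcard
      _ = (b : ℝ) ^ ((R - 1 : ℕ) : ℝ) := by push_cast; rw [Real.rpow_natCast]
      _ = ((b ^ R : ℕ) : ℝ) ^ ((R - 1 : ℝ) / R) := by
          push_cast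
          rw [← Real.rpow_natCast b R, ← Real.rpow_mul hb0.le, Nat.cast_sub hR, Nat.cast_one]
          congr 1
          field_simp

/-- **Sharpness.** -/
theorem sharp {b : ℕ} (hb : 2 ≤ b) {r : ℕ} (z : Fin (r + 1) → ℝ) :
    ∃ y : ℝ, ∀ i, dimH (orb b (y + z i)) ≤ ENNReal.ofReal ((r : ℝ) / (r + 1)) := by
  have hR : 0 < r + 1 := Nat.succ_pos r
  obtain ⟨y, hy⟩ := exists_point hb (r + 1) (fun k => if h : k < r + 1 then z ⟨k, h⟩ else 0)
  refine ⟨y, fun i => ?_⟩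
  have h1 := dimH_le_of_Fz hb hR (x := y + z i) i.2 (fun j hj => by
    have h2 := hy j
    rw [hj] at h2
    simp only [i.2, dif_pos] at h2
    exact h2)
  refine h1.trans (le_of_eq ?_)
  push_cast
  rw [add_sub_cancel_right]

end Pool.Agent.K1H67.CO
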