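import Pool.Agent.K1H67.CO.Sparse
import Pool.Agent.K1H67.CO.Sharp

/-!
# The vector space of numbers with long periodic runs; joint density
-/

set_option autoImplicit false

open Finset Filter Topology Set
open scoped ENNReal

namespace Pool.Agent.K1H67.CO

/-- constants can be absorbed -/
lemma absorb {a : ℕ} (ha : 2 ≤ a) {N : ℕ → ℕ} (hN : Tendsto N atTop atTop) {ρ : ℝ} (hρ : 0 < ρ)
    {u : ℝ} {Q : ℕ} (hQ : 1 ≤ Q) {C : ℝ} (h : ∀ᶠ j in atTop, ∃ A : ℤ,
      |(Q : ℝ) * (a : ℝ) ^ N j * u - A| ≤ C * Real.exp (-(a : ℝ) ^ (ρ * N j))) : u ∈ Gr a N := by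
  have haR : (2 : ℝ) ≤ a := by exact_mod_cast ha
  have ha0 : (0 : ℝ) < a := by linarith
  refine ⟨Q, ρ / 2, hQ, by positivity, ?_⟩
  have hbig : Tendsto (fun j => (a : ℝ) ^ (ρ / 2 * N j)) atTop atTop := by
    have h2 : 1 < (a : ℝ) ^ (ρ / 2) := Real.one_lt_rpow (by linarith) (by positivity)
    refine ((tendsto_pow_atTop_atTop_of_one_lt h2).comp hN).congr fun j => ?_
    simp only [Function.comp]
    rw [← Real.rpow_natCast, ← Real.rpow_mul ha0.le]
  filter_upwards [h, hbig.eventually_ge_atTop (1 + Real.log (|C| + 1))] with j hj hE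
  obtain ⟨A, hA⟩ := hj
  refine ⟨A, hA.trans ?_⟩
  have hEE : (a : ℝ) ^ (ρ * N j) = (a : ℝ) ^ (ρ / 2 * N j) * (a : ℝ) ^ (ρ / 2 * N j) := by
    rw [← Real.rpow_add ha0]
    congr 1
    ring
  rw [hEE]
  set E : ℝ := (a : ℝ) ^ (ρ / 2 * N j) with hEd
  have hE0 : 0 < E := by positivity
  have hC0 : 0 < |C| + 1 := by positivity
  have hl : 0 ≤ Real.log (|C| + 1) := Real.log_nonneg (by linarith [abs_nonneg C])
  calc C * Real.exp (-(E * E)) ≤ (|C| + 1) * Real.exp (-(E * E)) := by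
        gcongr
        linarith [le_abs_self C]
    _ = Real.exp (Real.log (|C| + 1)) * Real.exp (-(E * E)) := by rw [Real.exp_log hC0]
    _ = Real.exp (Real.log (|C| + 1) - E * E) := by rw [← Real.exp_add]; congr 1
    _ ≤ Real.exp (-E) := by
        apply Real.exp_le_exp.2
        nlinarith

/-- the numbers with long periodic runs form a vector space over the rational numbers -/
theorem space {a : ℕ} (ha : 2 ≤ a) {N : ℕ → ℕ} (hN : Tendsto N atTop atTop) :
    ∃ V : Submodule ℚ ℝ, (V : Set ℝ) = Gr a N ∧ (1 : ℝ) ∈ V := by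
  have hsmul : ∀ (q : ℚ) (z : ℝ), z ∈ Gr a N → q • z ∈ Gr a N := by
    rintro q z ⟨Q, ρ, hQ, hρ, h⟩
    refine absorb ha hN hρ (Q := Q * q.den) (Nat.mul_pos hQ q.pos) (C := |(q.num : ℝ)|) ?_
    filter_upwards [h] with j hj
    obtain ⟨A, hA⟩ := hj
    refine ⟨q.num * A, ?_⟩
    have hden : (q.den : ℝ) ≠ 0 := by exact_mod_cast q.pos.ne'
    have h1 : ((Q * q.den : ℕ) : ℝ) * (a : ℝ) ^ N j * (q • z) - ((q.num * A : ℤ) : ℝ) =
        q.num * ((Q : ℝ) * (a : ℝ) ^ N j * z - A) := by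
      rw [Rat.smul_def]
      have h2 : (q : ℝ) = q.num / q.den := by
        have := Rat.num_div_den q
        have h3 : ((q.num / q.den : ℚ) : ℝ) = (q : ℝ) := by rw [this]
        rw [← h3]; push_cast; rfl
      rw [h2]
      push_cast
      field_simp
    rw [h1, abs_mul]
    gcongr
  have hadd : ∀ z w : ℝ, z ∈ Gr a N → w ∈ Gr a N → z + w ∈ Gr a N := by
    intro z w hz hw
    obtain ⟨Q, ρ, hQ, hρ, h⟩ := comb ha (N := N) ![z, w] (fun i => by
      refine Fin.cases ?_ (fun i => ?_) i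
      · exact hz
      · refine Fin.cases ?_ (fun i => i.elim0) i
        exact hw)
    obtain ⟨C, hC⟩ := h ![1, 1]
    refine absorb ha hN hρ hQ (C := C) ?_
    have h1 : ∑ i, ((![1, 1] : Fin 2 → ℤ) i : ℝ) * (![z, w] : Fin 2 → ℝ) i = z + w := by
      simp [Fin.sum_univ_two]
    rwa [h1] at hC
  have hone : (1 : ℝ) ∈ Gr a N := by
    refine absorb ha hN one_pos (Q := 1) le_rfl (C := 0) ?_
    refine Eventually.of_forall fun j => ⟨(a : ℤ) ^ N j, ?_⟩
    push_cast
    simp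
  refine ⟨{ carrier := Gr a N, add_mem' := fun {z w} hz hw => hadd z w hz hw,
            zero_mem' := ?_, smul_mem' := fun q z hz => hsmul q z hz }, rfl, hone⟩
  have := hsmul 0 1 hone
  simpa using this

/-- **Joint density.** -/
theorem joint {a b : ℕ} (ha : 2 ≤ a) (hb : 2 ≤ b) (hab : Nat.Coprime a b) {N : ℕ → ℕ}
    (hN : Tendsto N atTop atTop) {r : ℕ} (z : Fin r → ℝ) (hz : ∀ i, z i ∈ Gr a N)
    (hind : LinearIndependent ℚ (Fin.cons 1 z : Fin (r + 1) → ℝ)) :
    Dense (Set.range fun (m : ℕ) (i : Fin r) => (((b : ℝ) ^ m * z i : ℝ) : AddCircle (1 : ℝ))) := by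
  obtain ⟨Q, ρ, hQ, hρ, hcomb⟩ := comb ha z hz
  have h := dense_torus (pt b z) (fun j => (0 + 1) * N j)
    (P := fun j => ⌊(a : ℝ) ^ (ρ / 2 * N j)⌋₊ + 1) (fun j => Nat.succ_pos _) fun k hk => ?_
  · exact h
  · have hirr := irrational_of_independent hind hk
    obtain ⟨C, hC⟩ := hcomb k
    have h1 := fun K => generic_of_irrational ha hN hρ hirr hQ hC K
    have h2 := sums_tendsto (a₂ := 1) (e := 0) (mul_one a).symm ha hb hab (one_dvd _) hN hρ hQ h1
    refine h2.congr fun j => ?_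
    unfold wavg
    simp_rw [mFourier_pt]

/-- at most one class modulo the rational numbers with small dimension -/
theorem half {a b : ℕ} (ha : 2 ≤ a) (hb : 2 ≤ b) (hab : Nat.Coprime a b) {N : ℕ → ℕ}
    (hN : Tendsto N atTop atTop) (y : ℝ) {x x' : ℝ} (hx : x - y ∈ Gr a N) (hx' : x' - y ∈ Gr a N)
    (h : dimH (orb b x) + dimH (orb b x') < 1) : ∃ q : ℚ, x' - x = q := by
  by_contra hcon
  push Not at hcon
  have hirr : Irrational (x' - x) := by
    rintro ⟨q, hq⟩
    exact hcon q hq.symm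
  have hind : LinearIndependent ℚ
      (Fin.cons 1 (fun i : Fin 1 => (![x, x'] : Fin 2 → ℝ) i.succ - (![x, x'] : Fin 2 → ℝ) 0) :
        Fin 2 → ℝ) := by
    rw [Fintype.linearIndependent_iff]
    intro g hg
    rw [Fin.sum_univ_two] at hg
    have h0 : (Fin.cons 1 (fun i : Fin 1 => (![x, x'] : Fin 2 → ℝ) i.succ - (![x, x'] : Fin 2 → ℝ) 0) :
        Fin 2 → ℝ) 0 = 1 := rfl
    have h1 : (Fin.cons 1 (fun i : Fin 1 => (![x, x'] : Fin 2 → ℝ) i.succ - (![x, x'] : Fin 2 → ℝ) 0) :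
        Fin 2 → ℝ) 1 = x' - x := rfl
    rw [h0, h1, Rat.smul_def, Rat.smul_def, mul_one] at hg
    have hg1 : g 1 = 0 := by
      by_contra hne
      have hne' : (g 1 : ℝ) ≠ 0 := by exact_mod_cast hne
      apply hirr
      refine ⟨-(g 0) / g 1, ?_⟩
      push_cast
      rw [div_eq_iff hne']
      linarith
    have hg0 : g 0 = 0 := by
      rw [hg1] at hg
      simp only [Rat.cast_zero, zero_mul, add_zero] at hg
      exact_mod_cast hg
    intro i
    refine Fin.cases hg0 (fun i => ?_) i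
    refine Fin.cases hg1 (fun i => i.elim0) i
  have h2 := main_ineq ha hb hab hN y (r := 1) ![x, x'] (fun i => by
      refine Fin.cases ?_ (fun i => ?_) i
      · exact hx
      · refine Fin.cases ?_ (fun i => i.elim0) i
        exact hx') hind
  rw [Fin.sum_univ_two] at h2
  have h3 : (1 : ℝ≥0∞) ≤ dimH (orb b x) + dimH (orb b x') := by simpa using h2
  exact absurd h3 (not_le.2 h)

/-- sums without exceptions -/
theorem no_exception {a b : ℕ} (ha : 2 ≤ a) (hb : 2 ≤ b) (hab : Nat.Coprime a b) {N : ℕ → ℕ}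
    (hN : Tendsto N atTop atTop) {y z : ℝ} (hz : z ∈ Gr a N) (hirr : Irrational z)
    (h : dimH (orb b y) + dimH (orb a z) ≤ dimH (orb a y)) :
    1 ≤ dimH (orb a (y + z)) + dimH (orb b (y + z)) := by
  obtain ⟨V, hV, h1V⟩ := space ha hN
  have h0 : y - y ∈ Gr a N := by
    rw [sub_self, ← hV]; exact V.zero_mem
  have hz' : y + z - y ∈ Gr a N := by rwa [add_sub_cancel_left]
  have h1 : 1 ≤ dimH (orb b y) + dimH (orb b (y + z)) := by
    by_contra hcon
    rw [not_le] at hcon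
    obtain ⟨q, hq⟩ := half ha hb hab hN y h0 hz' hcon
    rw [add_sub_cancel_left] at hq
    exact hirr ⟨q, hq.symm⟩
  have h2 : dimH (orb a y) ≤ dimH (orb a (y + z)) + dimH (orb a z) := by
    have h3 := dimH_add_le ha (y + z) (-z)
    rw [add_neg_cancel_right] at h3
    exact h3.trans (add_le_add le_rfl (dimH_neg_le a z))
  have hzt : dimH (orb a z) ≠ ⊤ := ne_top_of_le_ne_top ENNReal.one_ne_top (dimH_orb_le a z)
  have h4 : dimH (orb b y) ≤ dimH (orb a (y + z)) :=
    ENNReal.le_of_add_le_add_right hzt (h.trans h2)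
  exact h1.trans (add_le_add h4 le_rfl)

/-- one of several points satisfies the inequality -/
lemma exists_good {r : ℕ} {d e : Fin (r + 1) → ℝ≥0∞} (h : (r : ℝ≥0∞) ≤ ∑ i, d i)
    (h1 : 1 ≤ ∑ i, e i) : ∃ i, 1 ≤ e i + d i := by
  by_contra hcon
  push Not at hcon
  have h2 : ∑ i, (e i + d i) < ∑ _i : Fin (r + 1), (1 : ℝ≥0∞) :=
    ENNReal.sum_lt_sum_of_nonempty Finset.univ_nonempty fun i _ => hcon i
  rw [Finset.sum_add_distrib, Finset.sum_const, Finset.card_univ, Fintype.card_fin, nsmul_eq_mul,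
    mul_one] at h2
  have h3 : ((r + 1 : ℕ) : ℝ≥0∞) ≤ ∑ i, e i + ∑ i, d i := by
    push_cast
    rw [add_comm]
    exact add_le_add h1 h
  exact absurd h3 (not_le.2 h2)

end Pool.Agent.K1H67.CO
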