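import Pool.Agent.K1H67.CO.Cnt
import Pool.Agent.K1H67.SD.Zero

/-!
# Changes of the digits at very sparse places
-/

set_option autoImplicit false

open Finset Filter Topology Set
open scoped ENNReal

namespace Pool.Agent.K1H67.CO

open Pool.Agent.K1H67.SD (bound_J summable_digits tail_le)

/-- the part of `a` coprime to `b` -/
lemma coprime_part {a b p : ℕ} (ha : 2 ≤ a) (hp : p.Prime) (hpa : p ∣ a)
    (hpb : ¬ p ∣ b) :
    ∃ a₁ a₂ : ℕ, a = a₁ * a₂ ∧ 2 ≤ a₁ ∧ Nat.Coprime a₁ b ∧ a₂ ∣ b ^ a := by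
  have ha0 : a ≠ 0 := by omega
  set a₂ := Nat.gcd a (b ^ a) with ha₂
  obtain ⟨a₁, ha₁⟩ : a₂ ∣ a := Nat.gcd_dvd_left _ _
  have ha₂b : a₂ ∣ b ^ a := Nat.gcd_dvd_right _ _
  have haa : a = a₁ * a₂ := by rw [mul_comm]; exact ha₁
  have ha₁0 : a₁ ≠ 0 := by rintro rfl; simp at haa; omega
  refine ⟨a₁, a₂, haa, ?_, ?_, ha₂b⟩
  · have h1 : p ∣ a₁ * a₂ := haa ▸ hpa
    rcases hp.dvd_mul.1 h1 with h | h
    · exact hp.two_le.trans (Nat.le_of_dvd (Nat.pos_of_ne_zero ha₁0) h)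
    · exact absurd (hp.dvd_of_dvd_pow (h.trans ha₂b)) hpb
  · by_contra hcon
    obtain ⟨r, hr, hra, hrb⟩ := Nat.Prime.not_coprime_iff_dvd.1 hcon
    have hv : a.factorization r < a := Nat.factorization_lt r ha0
    have h1 : r ^ a.factorization r ∣ a₂ := by
      refine Nat.dvd_gcd (Nat.ordProj_dvd a r) ?_
      exact (pow_dvd_pow r hv.le).trans (pow_dvd_pow_of_dvd hrb a)
    have h2 : r ^ (a.factorization r + 1) ∣ a := by
      rw [pow_succ, mul_comm]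
      nth_rewrite 2 [haa]
      exact Nat.mul_dvd_mul hra h1
    exact Nat.pow_succ_factorization_not_dvd ha0 hr h2

section

variable {a : ℕ} {n : ℕ → ℕ} {ρ : ℝ}

/-- the size of the remainder -/
lemma growth (ha : 2 ≤ a) (hn : StrictMono n) (hρ : 0 < ρ)
    (hg : ∀ᶠ k in atTop, (a : ℝ) ^ (ρ * n k) ≤ n (k + 1)) :
    ∀ᶠ k in atTop, (a : ℝ) ^ n k / (a : ℝ) ^ n (k + 1) ≤ Real.exp (-(a : ℝ) ^ (ρ / 2 * n k)) := by
  have haR : (2 : ℝ) ≤ a := by exact_mod_cast ha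
  have ha0 : (0 : ℝ) < a := by linarith
  set θ : ℝ := (a : ℝ) ^ (ρ / 2) with hθ
  have hθ1 : 1 < θ := Real.one_lt_rpow (by linarith) (by positivity)
  have hlin : ∀ᶠ m : ℕ in atTop, (m : ℝ) ≤ θ ^ m := by
    have h1 := tendsto_pow_const_div_const_pow_of_one_lt 1 hθ1
    have h2 := h1.eventually_le_const (show (0 : ℝ) < 1 by norm_num)
    filter_upwards [h2] with m hm
    rw [div_le_one (by positivity), pow_one] at hm
    exact hm
  have hbig := (tendsto_pow_atTop_atTop_of_one_lt hθ1).eventually_ge_atTop 3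
  filter_upwards [hg, hn.tendsto_atTop.eventually hlin, hn.tendsto_atTop.eventually hbig]
    with k h1 h2 h3
  have hE : (a : ℝ) ^ (ρ / 2 * n k) = θ ^ n k := by
    rw [hθ, ← Real.rpow_natCast, ← Real.rpow_mul ha0.le]
  have hEE : (a : ℝ) ^ (ρ * n k) = θ ^ n k * θ ^ n k := by
    rw [← hE, ← Real.rpow_add ha0]
    congr 1
    ring
  rw [hEE] at h1
  rw [hE]
  set E : ℝ := θ ^ n k with hEd
  have hl2 : (1 : ℝ) / 2 ≤ Real.log a := by
    have h4 := Real.log_two_gt_d9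
    have h5 : Real.log 2 ≤ Real.log a := Real.log_le_log (by norm_num) haR
    linarith
  have h6 : (a : ℝ) ^ n k / (a : ℝ) ^ n (k + 1) =
      Real.exp (-(((n (k + 1) : ℝ) - n k) * Real.log a)) := by
    rw [← Real.rpow_natCast, ← Real.rpow_natCast, ← Real.rpow_sub ha0, Real.rpow_def_of_pos ha0]
    congr 1
    ring
  rw [h6]
  apply Real.exp_le_exp.2
  have h7 : 2 * E ≤ (n (k + 1) : ℝ) - n k := by nlinarith
  have h8 : 0 < E := by linarith
  nlinarith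

/-- the gaps -/
lemma gaps (ha : 2 ≤ a) (hn : StrictMono n) (hρ : 0 < ρ)
    (hg : ∀ᶠ k in atTop, (a : ℝ) ^ (ρ * n k) ≤ n (k + 1)) :
    Tendsto (fun k => n (k + 1) - n k) atTop atTop := by
  have haR : (2 : ℝ) ≤ a := by exact_mod_cast ha
  have ha0 : (0 : ℝ) < a := by linarith
  rw [tendsto_atTop]
  intro G
  have hsmall := exp_small ha hn.tendsto_atTop (show 0 < ρ / 2 by positivity) 1
    (show (0 : ℝ) < 1 / (a : ℝ) ^ G by positivity)
  filter_upwards [growth ha hn hρ hg, hsmall] with k h1 h2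
  rw [one_mul] at h2
  have h3 := h1.trans_lt h2
  rw [div_lt_div_iff₀ (by positivity) (by positivity), one_mul, ← pow_add] at h3
  have h4 := (pow_lt_pow_iff_right₀ (by linarith : (1 : ℝ) < a)).1 h3
  omega

/-- the approximations by the truncated sums -/
theorem sparse_app {a₁ a₂ : ℕ} (haa : a = a₁ * a₂) (ha₁ : 2 ≤ a₁) (hcop : Nat.Coprime a₁ a₂)
    (ha : 2 ≤ a) (hn : StrictMono n) (hρ : 0 < ρ)
    (hg : ∀ᶠ k in atTop, (a : ℝ) ^ (ρ * n k) ≤ n (k + 1)) {e : ℕ → ℤ} {B : ℝ}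
    (hB : ∀ k, |(e k : ℝ)| ≤ B) (hne : ∃ᶠ k in atTop, e k ≠ 0) (K : ℕ) :
    ∀ᶠ k in atTop, ∃ A : ℤ,
      |((1 : ℕ) : ℝ) * (a : ℝ) ^ n k * (∑' j, (e j : ℝ) / (a : ℝ) ^ n j) - A| ≤
        2 * B * Real.exp (-(a : ℝ) ^ (ρ / 2 * n k)) ∧
        ¬ (a₁ : ℤ) ^ n k ∣ (a₁ : ℤ) ^ K * A := by
  classical
  have haR : (2 : ℝ) ≤ a := by exact_mod_cast ha
  have ha0 : (0 : ℝ) < a := by linarith
  have hB0 : 0 ≤ B := (abs_nonneg _).trans (hB 0)
  have hsum := summable_digits ha hn hB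
  obtain ⟨G, hG⟩ : ∃ G : ℕ, B < 2 ^ G := pow_unbounded_of_one_lt B one_lt_two
  obtain ⟨k0, hk0⟩ := eventually_atTop.1 ((gaps ha hn hρ hg).eventually_ge_atTop G)
  obtain ⟨k0', hk0'⟩ := eventually_atTop.1 (hn.tendsto_atTop.eventually_ge_atTop (K + G))
  obtain ⟨k1, hk1, hk1e⟩ := (frequently_atTop.1 hne) (k0 + k0' + 1)
  filter_upwards [growth ha hn hρ hg, eventually_ge_atTop k1] with k hgr hk
  refine ⟨∑ j ∈ Finset.range (k + 1), e j * (a : ℤ) ^ (n k - n j), ?_, ?_⟩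
  · have e1 : (a : ℝ) ^ n k * (∑' j, (e j : ℝ) / (a : ℝ) ^ n j) -
        ((∑ j ∈ Finset.range (k + 1), e j * (a : ℤ) ^ (n k - n j) : ℤ) : ℝ) =
        (a : ℝ) ^ n k * ∑' j, (e (j + (k + 1)) : ℝ) / (a : ℝ) ^ n (j + (k + 1)) := by
      rw [← hsum.sum_add_tsum_nat_add (k + 1), mul_add, Finset.mul_sum]
      have h1 : ∑ i ∈ Finset.range (k + 1), (a : ℝ) ^ n k * ((e i : ℝ) / (a : ℝ) ^ n i) =
          ((∑ j ∈ Finset.range (k + 1), e j * (a : ℤ) ^ (n k - n j) : ℤ) : ℝ) := by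
        push_cast
        refine Finset.sum_congr rfl fun i hi => ?_
        rw [Finset.mem_range] at hi
        have h2 : n i ≤ n k := hn.monotone (by omega)
        have h3 : (a : ℝ) ^ n k = (a : ℝ) ^ (n k - n i) * (a : ℝ) ^ n i := by
          rw [← pow_add]; congr 1; omega
        rw [h3]
        field_simp
      rw [h1]
      ring
    rw [Nat.cast_one, one_mul, e1, abs_mul, abs_of_pos (by positivity : (0 : ℝ) < (a : ℝ) ^ n k)]
    calc (a : ℝ) ^ n k * |∑' j, (e (j + (k + 1)) : ℝ) / (a : ℝ) ^ n (j + (k + 1))|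
        ≤ (a : ℝ) ^ n k * (2 * B / (a : ℝ) ^ n (k + 1)) := by
          gcongr
          exact tail_le ha hn hB (k + 1)
      _ = 2 * B * ((a : ℝ) ^ n k / (a : ℝ) ^ n (k + 1)) := by ring
      _ ≤ _ := by gcongr
  · intro hdvd
    -- the last nonzero digit
    set k' : ℕ := Nat.findGreatest (fun j => e j ≠ 0) k with hk'
    have hek' : e k' ≠ 0 := Nat.findGreatest_spec (P := fun j => e j ≠ 0) hk hk1e
    have hk'1 : k1 ≤ k' := Nat.le_findGreatest hk hk1e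
    have hk'k : k' ≤ k := Nat.findGreatest_le k
    have hzero : ∀ j, k' < j → j ≤ k → e j = 0 := by
      intro j h1 h2
      by_contra h3
      exact Nat.findGreatest_is_greatest (P := fun j => e j ≠ 0) h1 h2 h3
    have hkk : n k' ≤ n k := hn.monotone hk'k
    obtain ⟨D, hD⟩ : ∃ D : ℕ, n k = n k' + D := ⟨n k - n k', by omega⟩
    -- the truncated sum
    have hA : ∑ j ∈ Finset.range (k + 1), e j * (a : ℤ) ^ (n k - n j) =
        (a : ℤ) ^ D * (∑ j ∈ Finset.range k', e j * (a : ℤ) ^ (n k' - n j) + e k') := by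
      have h1 : ∑ j ∈ Finset.range (k + 1), e j * (a : ℤ) ^ (n k - n j) =
          ∑ j ∈ Finset.range (k' + 1), e j * (a : ℤ) ^ (n k - n j) := by
        symm
        refine Finset.sum_subset (Finset.range_mono (by omega)) fun j hj1 hj2 => ?_
        rw [Finset.mem_range] at hj1 hj2
        rw [hzero j (by omega) (by omega), zero_mul]
      rw [h1, Finset.sum_range_succ, mul_add, Finset.mul_sum]
      congr 1
      · refine Finset.sum_congr rfl fun j hj => ?_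
        rw [Finset.mem_range] at hj
        have h2 : n j ≤ n k' := hn.monotone (by omega)
        have h3 : n k - n j = D + (n k' - n j) := by omega
        rw [h3, pow_add]
        ring
      · have h3 : n k - n k' = D := by omega
        rw [h3]
        ring
    obtain ⟨s, hs⟩ : (a : ℤ) ^ G ∣ ∑ j ∈ Finset.range k', e j * (a : ℤ) ^ (n k' - n j) := by
      refine Finset.dvd_sum fun j hj => Dvd.dvd.mul_left ?_ _
      rw [Finset.mem_range] at hj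
      refine pow_dvd_pow _ ?_
      obtain ⟨t, ht⟩ : ∃ t, k' = t + 1 := ⟨k' - 1, by omega⟩
      have h4 := hk0 t (by omega)
      have h5 : n j ≤ n t := hn.monotone (by omega)
      rw [ht]
      omega
    have hnk' : K + G ≤ n k' := hk0' k' (by omega)
    rw [hA, hs] at hdvd
    have ha₁Z : (a₁ : ℤ) ≠ 0 := by exact_mod_cast (by omega : a₁ ≠ 0)
    have h6 : (a₁ : ℤ) ^ (n k' - K) ∣ (a₂ : ℤ) ^ D * ((a : ℤ) ^ G * s + e k') := by
      have h7 : (a₁ : ℤ) ^ n k = (a₁ : ℤ) ^ (K + D) * (a₁ : ℤ) ^ (n k' - K) := by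
        rw [← pow_add]; congr 1; omega
      have h8 : (a₁ : ℤ) ^ K * ((a : ℤ) ^ D * ((a : ℤ) ^ G * s + e k')) =
          (a₁ : ℤ) ^ (K + D) * ((a₂ : ℤ) ^ D * ((a : ℤ) ^ G * s + e k')) := by
        have h9 : (a : ℤ) ^ D = (a₁ : ℤ) ^ D * (a₂ : ℤ) ^ D := by
          rw [← mul_pow, haa]; push_cast; rfl
        rw [h9, pow_add]
        ring
      rw [h7, h8] at hdvd
      exact (mul_dvd_mul_iff_left (pow_ne_zero _ ha₁Z)).1 hdvd
    have hcopZ : IsCoprime (a₁ : ℤ) (a₂ : ℤ) := Nat.isCoprime_iff_coprime.2 hcop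
    have h10 : (a₁ : ℤ) ^ (n k' - K) ∣ (a : ℤ) ^ G * s + e k' :=
      (IsCoprime.pow (m := n k' - K) (n := D) hcopZ).dvd_of_dvd_mul_left h6
    have h11 : (a₁ : ℤ) ^ G ∣ (a : ℤ) ^ G * s + e k' :=
      (pow_dvd_pow _ (by omega)).trans h10
    have h12 : (a₁ : ℤ) ^ G ∣ (a : ℤ) ^ G * s := by
      refine Dvd.dvd.mul_right (pow_dvd_pow_of_dvd ?_ G) _
      rw [haa]; push_cast
      exact dvd_mul_right _ _
    have h13 : (a₁ : ℤ) ^ G ∣ e k' := (dvd_add_right h12).1 h11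
    have h14 : (a₁ : ℤ) ^ G ≤ |e k'| := Int.le_of_dvd (abs_pos.2 hek') ((dvd_abs _ _).2 h13)
    have h15 : ((a₁ : ℝ)) ^ G ≤ |(e k' : ℝ)| := by exact_mod_cast h14
    have h16 : (2 : ℝ) ^ G ≤ (a₁ : ℝ) ^ G := by
      have : (2 : ℝ) ≤ a₁ := by exact_mod_cast ha₁
      gcongr
    have := hB k'
    linarith

end

/-- the real number `y`, changed by `d k` at the place `n k` in base `a` -/
noncomputable def num (a : ℕ) (n : ℕ → ℕ) (y : ℝ) (d : ℕ → ℤ) : ℝ :=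
  y + ∑' k, (d k : ℝ) / (a : ℝ) ^ n k

/-- integer combinations of differences -/
lemma comb_num {a : ℕ} (ha : 2 ≤ a) {n : ℕ → ℕ} (hn : StrictMono n) {J : Finset ℤ} (y : ℝ) {r : ℕ}
    {d : Fin (r + 1) → ℕ → ℤ} (hd : ∀ i k, d i k ∈ J) (κ : Fin r → ℤ) :
    (∃ B : ℝ, ∀ k, |((∑ i, κ i * (d i.succ k - d 0 k) : ℤ) : ℝ)| ≤ B) ∧
    ∑ i, (κ i : ℝ) * (num a n y (d i.succ) - num a n y (d 0)) =
      ∑' k, ((∑ i, κ i * (d i.succ k - d 0 k) : ℤ) : ℝ) / (a : ℝ) ^ n k := by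
  obtain ⟨B, hB0, hB⟩ := bound_J J
  have hs : ∀ i, Summable fun k => (d i k : ℝ) / (a : ℝ) ^ n k := fun i =>
    summable_digits ha hn fun k => hB _ (hd i k)
  constructor
  · refine ⟨∑ i, |(κ i : ℝ)| * (B + B), fun k => ?_⟩
    push_cast
    refine (Finset.abs_sum_le_sum_abs _ _).trans (Finset.sum_le_sum fun i _ => ?_)
    rw [abs_mul]
    apply mul_le_mul_of_nonneg_left _ (abs_nonneg _)
    have h1 := abs_le.1 (hB _ (hd i.succ k))
    have h2 := abs_le.1 (hB _ (hd 0 k))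
    rw [abs_le]
    constructor <;> linarith [h1.1, h1.2, h2.1, h2.2]
  · have h1 : ∀ i : Fin r, (κ i : ℝ) * (num a n y (d i.succ) - num a n y (d 0)) =
        ∑' k, (κ i : ℝ) * ((d i.succ k : ℝ) / (a : ℝ) ^ n k - (d 0 k : ℝ) / (a : ℝ) ^ n k) := by
      intro i
      rw [tsum_mul_left, (hs i.succ).tsum_sub (hs 0)]
      unfold num
      ring
    simp_rw [h1]
    rw [← Summable.tsum_finsetSum fun i _ => ((hs i.succ).sub (hs 0)).mul_left _]
    refine tsum_congr fun k => ?_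
    push_cast
    rw [Finset.sum_div]
    refine Finset.sum_congr rfl fun i _ => ?_
    ring

/-- **The inequality for sparse changes.** -/
theorem sparse_ineq {a b p : ℕ} (ha : 2 ≤ a) (hb : 2 ≤ b) (hp : p.Prime) (hpa : p ∣ a)
    (hpb : ¬ p ∣ b) {n : ℕ → ℕ} (hn : StrictMono n) {ρ : ℝ} (hρ : 0 < ρ)
    (hg : ∀ᶠ k in atTop, (a : ℝ) ^ (ρ * n k) ≤ n (k + 1)) {J : Finset ℤ} (y : ℝ) {r : ℕ}
    {d : Fin (r + 1) → ℕ → ℤ} (hd : ∀ i k, d i k ∈ J)
    (hind : ∀ κ : Fin r → ℤ, κ ≠ 0 → ∃ᶠ k in atTop, ∑ i, κ i * (d i.succ k - d 0 k) ≠ 0) :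
    (r : ℝ≥0∞) ≤ ∑ i, dimH (orb b (num a n y (d i))) := by
  obtain ⟨a₁, a₂, haa, ha₁, hcop, hdvd⟩ := coprime_part ha hp hpa hpb
  have hcop2 : Nat.Coprime a₁ a₂ := Nat.Coprime.coprime_dvd_right hdvd (Nat.Coprime.pow_right a hcop)
  refine dims_of_sums hb (fun i => num a n y (d i)) (fun j => (a + 1) * n j)
    (fun j => ⌊(a : ℝ) ^ (ρ / 2 / 2 * n j)⌋₊ + 1) (fun j => Nat.succ_pos _) fun κ hκ => ?_
  obtain ⟨⟨B, hB⟩, hsum⟩ := comb_num ha hn y hd κ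
  rw [hsum]
  have h1 := fun K => sparse_app haa ha₁ hcop2 ha hn hρ hg hB (hind κ hκ) K
  exact sums_tendsto (Q := 1) (C := 2 * B) haa ha₁ hb hcop hdvd hn.tendsto_atTop
    (show 0 < ρ / 2 by positivity) le_rfl h1

/-- eventually equal digits -/
lemma eventually_of_rational {a : ℕ} (ha : 2 ≤ a) {n : ℕ → ℕ} (hn : StrictMono n) {ρ : ℝ}
    (hρ : 0 < ρ) (hg : ∀ᶠ k in atTop, (a : ℝ) ^ (ρ * n k) ≤ n (k + 1)) {e : ℕ → ℤ} {B : ℝ}
    (hB : ∀ k, |(e k : ℝ)| ≤ B) (h0 : ∑' j, (e j : ℝ) / (a : ℝ) ^ n j = 0) :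
    ∀ᶠ k in atTop, e k = 0 := by
  by_contra hcon
  have hne : ∃ᶠ k in atTop, e k ≠ 0 := Filter.not_eventually.1 hcon
  have h1 := sparse_app (a₁ := a) (a₂ := 1) (mul_one a).symm ha (Nat.coprime_one_right a) ha hn hρ hg
    hB hne 0
  have h2 := exp_small ha hn.tendsto_atTop (show 0 < ρ / 2 by positivity) (2 * B)
    (show (0 : ℝ) < 1 by norm_num)
  obtain ⟨k, ⟨A, hA1, hA2⟩, hk⟩ := (h1.and h2).exists
  rw [h0, mul_zero, zero_sub, abs_neg] at hA1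
  have h3 : |(A : ℝ)| < 1 := hA1.trans_lt hk
  have h4 : A = 0 := by
    have : |A| < 1 := by exact_mod_cast h3
    exact Int.abs_lt_one_iff.1 this
  apply hA2
  rw [h4, mul_zero]
  exact dvd_zero _

/-- **Countably many exceptions among the sparse changes.** -/
theorem sparse_countable {a : ℕ} (ha : 2 ≤ a) {n : ℕ → ℕ} (hn : StrictMono n) {ρ : ℝ} (hρ : 0 < ρ)
    (hg : ∀ᶠ k in atTop, (a : ℝ) ^ (ρ * n k) ≤ n (k + 1)) (J : Finset ℤ) (y : ℝ) :
    {d : ℕ → ℤ | (∀ k, d k ∈ J) ∧ ∃ b : ℕ, 2 ≤ b ∧ (∃ p : ℕ, p.Prime ∧ p ∣ a ∧ ¬ p ∣ b) ∧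
      dimH (orb b (num a n y d)) ≠ 1}.Countable := by
  classical
  obtain ⟨B, hB0, hB⟩ := bound_J J
  -- the numbers
  set G : Set ℝ := {x | ∃ d : ℕ → ℤ, (∀ k, d k ∈ J) ∧ x = num a n y d} with hG
  have hnum : {x : ℝ | x ∈ G ∧ ∃ b : ℕ, 2 ≤ b ∧ (∃ p : ℕ, p.Prime ∧ p ∣ a ∧ ¬ p ∣ b) ∧
      dimH (orb b x) ≠ 1}.Countable := by
    refine countable_exceptions (P := fun b => ∃ p : ℕ, p.Prime ∧ p ∣ a ∧ ¬ p ∣ b) ?_
    rintro b hb ⟨p, hp, hpa, hpb⟩ r x hx hind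
    choose d hd hxd using hx
    have hxeq : x = fun i => num a n y (d i) := funext hxd
    subst hxeq
    refine sparse_ineq ha hb hp hpa hpb hn hρ hg y hd fun κ hκ => ?_
    have hirr := irrational_of_independent hind hκ
    obtain ⟨-, hsum⟩ := comb_num ha hn y hd κ
    simp only at hirr
    rw [hsum] at hirr
    by_contra hcon
    rw [Filter.not_frequently] at hcon
    apply hirr
    obtain ⟨k0, hk0⟩ := eventually_atTop.1 hcon
    have h1 : ∀ k, k ∉ Finset.range k0 →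
        ((∑ i, κ i * (d i.succ k - d 0 k) : ℤ) : ℝ) / (a : ℝ) ^ n k = 0 := by
      intro k hk
      rw [Finset.mem_range, not_lt] at hk
      have h2 := hk0 k hk
      push Not at h2
      rw [h2]
      simp
    rw [tsum_eq_sum h1]
    refine ⟨∑ k ∈ Finset.range k0, ((∑ i, κ i * (d i.succ k - d 0 k) : ℤ) : ℚ) / (a : ℚ) ^ n k, ?_⟩
    push_cast
    rfl
  -- the sequences
  have hsub : {d : ℕ → ℤ | (∀ k, d k ∈ J) ∧ ∃ b : ℕ, 2 ≤ b ∧
      (∃ p : ℕ, p.Prime ∧ p ∣ a ∧ ¬ p ∣ b) ∧ dimH (orb b (num a n y d)) ≠ 1} ⊆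
      ⋃ x ∈ {x : ℝ | x ∈ G ∧ ∃ b : ℕ, 2 ≤ b ∧ (∃ p : ℕ, p.Prime ∧ p ∣ a ∧ ¬ p ∣ b) ∧
        dimH (orb b x) ≠ 1}, {d : ℕ → ℤ | (∀ k, d k ∈ J) ∧ num a n y d = x} := by
    rintro d ⟨hd, hb⟩
    exact mem_iUnion₂.2 ⟨num a n y d, ⟨⟨d, hd, rfl⟩, hb⟩, hd, rfl⟩
  refine Set.Countable.mono hsub (Set.Countable.biUnion hnum fun x _ => ?_)
  -- a fibre
  rcases ({d : ℕ → ℤ | (∀ k, d k ∈ J) ∧ num a n y d = x} : Set (ℕ → ℤ)).eq_empty_or_nonempty
    with h | ⟨d0, hd0, hx0⟩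
  · rw [h]; exact countable_empty
  have hsub2 : {d : ℕ → ℤ | (∀ k, d k ∈ J) ∧ num a n y d = x} ⊆
      ⋃ k0 : ℕ, {d : ℕ → ℤ | ∀ k, k0 ≤ k → d k = d0 k} := by
    rintro d ⟨hd, hx⟩
    have hs := summable_digits ha hn fun k => hB _ (hd k)
    have hs0 := summable_digits ha hn fun k => hB _ (hd0 k)
    have h1 : ∑' j, (((d j - d0 j : ℤ)) : ℝ) / (a : ℝ) ^ n j = 0 := by
      have h2 : ∀ j, (((d j - d0 j : ℤ)) : ℝ) / (a : ℝ) ^ n j =
          (d j : ℝ) / (a : ℝ) ^ n j - (d0 j : ℝ) / (a : ℝ) ^ n j := by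
        intro j; push_cast; ring
      simp_rw [h2]
      rw [hs.tsum_sub hs0]
      have h3 : num a n y d = num a n y d0 := hx.trans hx0.symm
      unfold num at h3
      linarith
    have h4 := eventually_of_rational ha hn hρ hg (e := fun j => d j - d0 j) (B := B + B)
      (fun k => by
        push_cast
        have h5 := abs_le.1 (hB _ (hd k))
        have h6 := abs_le.1 (hB _ (hd0 k))
        rw [abs_le]
        constructor <;> linarith [h5.1, h5.2, h6.1, h6.2]) h1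
    obtain ⟨k0, hk0⟩ := eventually_atTop.1 h4
    exact mem_iUnion.2 ⟨k0, fun k hk => sub_eq_zero.1 (hk0 k hk)⟩
  refine Set.Countable.mono hsub2 (Set.countable_iUnion fun k0 => ?_)
  have hinj : Set.InjOn (fun (d : ℕ → ℤ) (i : Fin k0) => d i)
      {d : ℕ → ℤ | ∀ k, k0 ≤ k → d k = d0 k} := by
    intro d hd d' hd' h
    funext k
    by_cases hk : k < k0
    · exact congrFun h ⟨k, hk⟩
    · rw [hd k (not_lt.1 hk), hd' k (not_lt.1 hk)]
  exact (Set.mapsTo_univ _ _).countable_of_injOn hinj (Set.to_countable _)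

end Pool.Agent.K1H67.CO
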