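import Pool.Agent.Helper821.HB.KW
import Pool.Agent.K1H67.SD.Weyl
import Pool.Agent.K1H67.CO.Diff

/-!
# Weyl's criterion on the torus for windows of times
-/

set_option autoImplicit false

open MeasureTheory Filter Topology Set

namespace Pool.Agent.K1H67.CO

open Pool.Agent.K1H67.SD (ee ee_add norm_ee)

section

variable {κ : Type} [Fintype κ]

/-- the mean over a window of times -/
noncomputable def wavg (p : ℕ → UnitAddTorus κ) (m P : ℕ → ℕ) (g : UnitAddTorus κ → ℂ) (j : ℕ) : ℂ :=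
  (∑ l ∈ Finset.range (P j), g (p (m j + l))) / (P j : ℂ)

lemma wavg_sub_le (p : ℕ → UnitAddTorus κ) (m : ℕ → ℕ) {P : ℕ → ℕ} (hP : ∀ j, 0 < P j)
    (g h : C(UnitAddTorus κ, ℂ)) (j : ℕ) : ‖wavg p m P g j - wavg p m P h j‖ ≤ ‖g - h‖ := by
  unfold wavg
  have hPj : (0 : ℝ) < P j := by exact_mod_cast hP j
  rw [← sub_div, ← Finset.sum_sub_distrib, norm_div, Complex.norm_natCast, div_le_iff₀ hPj]
  refine (norm_sum_le _ _).trans ?_
  calc ∑ l ∈ Finset.range (P j), ‖g (p (m j + l)) - h (p (m j + l))‖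
      ≤ ∑ _l ∈ Finset.range (P j), ‖g - h‖ := Finset.sum_le_sum fun l _ =>
        (g - h).norm_coe_le_norm _
    _ = ‖g - h‖ * P j := by rw [Finset.sum_const, Finset.card_range, nsmul_eq_mul, mul_comm]

/-- Weyl's criterion -/
theorem weyl_torus (p : ℕ → UnitAddTorus κ) (m : ℕ → ℕ) {P : ℕ → ℕ} (hP : ∀ j, 0 < P j)
    (h : ∀ k : κ → ℤ, k ≠ 0 → Tendsto (wavg p m P (UnitAddTorus.mFourier k)) atTop (𝓝 0))
    (g : C(UnitAddTorus κ, ℂ)) : Tendsto (wavg p m P g) atTop (𝓝 (∫ x, g x)) := by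
  have hintT : ∀ (g : C(UnitAddTorus κ, ℂ)), Integrable (fun x => g x) volume := fun g =>
    (map_continuous g).integrable_of_hasCompactSupport (HasCompactSupport.of_compactSpace _)
  let S : Submodule ℂ C(UnitAddTorus κ, ℂ) :=
    { carrier := {g | Tendsto (wavg p m P g) atTop (𝓝 (∫ x, g x))}
      add_mem' := by
        intro a b ha hb
        have h1 := ha.add hb
        have h2 : ∫ x, (a + b) x = (∫ x, a x) + ∫ x, b x := integral_add (hintT a) (hintT b)
        show Tendsto _ _ (𝓝 (∫ x, (a + b) x))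
        rw [h2]
        refine h1.congr fun j => ?_
        unfold wavg
        rw [← add_div, ← Finset.sum_add_distrib]
        rfl
      zero_mem' := by
        show Tendsto (wavg p m P fun _ => (0 : ℂ)) atTop (𝓝 (∫ _x : UnitAddTorus κ, (0 : ℂ)))
        simp only [integral_zero]
        refine tendsto_const_nhds.congr fun j => ?_
        unfold wavg; simp
      smul_mem' := by
        intro c a ha
        have h1 := ha.const_mul c
        have h2 : ∫ x, (c • a) x = c * ∫ x, a x := integral_const_mul c _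
        show Tendsto _ _ (𝓝 (∫ x, (c • a) x))
        rw [h2]
        refine h1.congr fun j => ?_
        unfold wavg
        rw [← mul_div_assoc, Finset.mul_sum]
        rfl }
  have hchar : ∀ k : κ → ℤ, UnitAddTorus.mFourier k ∈ S := by
    intro k
    show Tendsto (wavg p m P (UnitAddTorus.mFourier k)) atTop
      (𝓝 (∫ x, UnitAddTorus.mFourier k x))
    rw [HB.integral_mFourier]
    by_cases hk : k = 0
    · rw [if_pos hk]
      subst hk
      refine tendsto_const_nhds.congr fun j => ?_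
      unfold wavg
      rw [UnitAddTorus.mFourier_zero]
      simp only [ContinuousMap.one_apply, Finset.sum_const, Finset.card_range, nsmul_eq_mul, mul_one]
      have : ((P j : ℕ) : ℂ) ≠ 0 := by exact_mod_cast (hP j).ne'
      rw [div_self this]
    · rw [if_neg hk]
      exact h k hk
  have hclosed : IsClosed (S : Set C(UnitAddTorus κ, ℂ)) := by
    rw [← isSeqClosed_iff_isClosed]
    intro u g hu hug
    show Tendsto (wavg p m P g) atTop (𝓝 (∫ x, g x))
    rw [Metric.tendsto_atTop]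
    intro ε hε
    obtain ⟨N, hN⟩ := (Metric.tendsto_atTop.1 hug) (ε / 4) (by positivity)
    have hn := hN N le_rfl
    have hn' : ‖u N - g‖ < ε / 4 := by rwa [dist_eq_norm] at hn
    obtain ⟨T0, hT0⟩ := (Metric.tendsto_atTop.1 (hu N)) (ε / 4) (by positivity)
    refine ⟨T0, fun T hT => ?_⟩
    have h1 := hT0 T hT
    have h2 : ‖wavg p m P g T - wavg p m P (u N) T‖ ≤ ε / 4 := by
      refine (wavg_sub_le p m hP g (u N) T).trans ?_
      rw [norm_sub_rev]
      exact hn'.le
    have h3 : ‖(∫ x, u N x) - ∫ x, g x‖ ≤ ε / 4 := by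
      rw [← integral_sub (hintT _) (hintT _)]
      have h5 : ‖∫ x, (u N x - g x)‖ ≤ ‖u N - g‖ * (volume : Measure (UnitAddTorus κ)).real univ :=
        norm_integral_le_of_norm_le_const (Eventually.of_forall fun x =>
          (u N - g).norm_coe_le_norm x)
      rw [HB.probReal_univ', mul_one] at h5
      exact h5.trans hn'.le
    calc dist (wavg p m P g T) (∫ x, g x)
        ≤ dist (wavg p m P g T) (wavg p m P (u N) T) + dist (wavg p m P (u N) T) (∫ x, u N x)
          + dist (∫ x, u N x) (∫ x, g x) := dist_triangle4 _ _ _ _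
      _ < ε / 4 + ε / 4 + ε / 2 := by
          rw [dist_eq_norm, dist_eq_norm (∫ x, u N x)]
          linarith
      _ = ε := by ring
  have htop : S = ⊤ := by
    have h1 : Submodule.span ℂ (range (UnitAddTorus.mFourier (d := κ))) ≤ S := by
      rw [Submodule.span_le]
      rintro _ ⟨k, rfl⟩
      exact hchar k
    rw [eq_top_iff, ← UnitAddTorus.span_mFourier_closure_eq_top]
    exact Submodule.topologicalClosure_minimal _ h1 hclosed
  have : g ∈ S := by rw [htop]; trivial
  exact this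

/-- means tending to integrals imply density -/
theorem dense_torus (p : ℕ → UnitAddTorus κ) (m : ℕ → ℕ) {P : ℕ → ℕ} (hP : ∀ j, 0 < P j)
    (h : ∀ k : κ → ℤ, k ≠ 0 → Tendsto (wavg p m P (UnitAddTorus.mFourier k)) atTop (𝓝 0)) :
    Dense (range p) := by
  by_contra hcon
  rw [dense_iff_closure_eq] at hcon
  obtain ⟨u, hu⟩ : ∃ u, u ∉ closure (range p) := by
    by_contra h
    push Not at h
    exact hcon (eq_univ_of_forall h)
  obtain ⟨f, hf0, hf1, hf01⟩ := exists_continuous_zero_one_of_isClosed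
    (isClosed_closure (s := range p)) (isClosed_singleton (x := u))
    (disjoint_singleton_right.2 hu)
  let g : C(UnitAddTorus κ, ℂ) := ⟨fun x => (f x : ℂ), by fun_prop⟩
  have h1 : ∀ j, wavg p m P g j = 0 := by
    intro j
    unfold wavg
    rw [Finset.sum_eq_zero, zero_div]
    intro l _
    have := hf0 (subset_closure (mem_range_self (m j + l)))
    simp only [g, ContinuousMap.coe_mk]
    rw [this]
    simp
  have h2 := weyl_torus p m hP h g
  have h2' : Tendsto (fun _ : ℕ => (0 : ℂ)) atTop (𝓝 (∫ x, g x)) := by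
    refine h2.congr fun j => h1 j
  have h3 : ∫ x, g x = 0 := tendsto_nhds_unique h2' tendsto_const_nhds
  have h4 : ∫ y : UnitAddTorus κ, g y = ((∫ y : UnitAddTorus κ, f y : ℝ) : ℂ) := by
    simp only [g, ContinuousMap.coe_mk]
    exact integral_complex_ofReal
  rw [h4] at h3
  have h5 : ∫ y : UnitAddTorus κ, f y = 0 := by exact_mod_cast h3
  have h6 : 0 < ∫ y : UnitAddTorus κ, f y := by
    refine Continuous.integral_pos_of_hasCompactSupport_nonneg_nonzero (x := u) f.continuous
      (HasCompactSupport.of_compactSpace _) (fun y => (hf01 y).1) ?_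
    have := hf1 (mem_singleton u)
    rw [this]
    simp
  linarith

end

/-- the orbit of a point of the torus -/
noncomputable def pt (b : ℕ) {r : ℕ} (z : Fin r → ℝ) (m : ℕ) : UnitAddTorus (Fin r) :=
  fun i => (((b : ℝ) ^ m * z i : ℝ) : UnitAddCircle)

lemma mFourier_pt (b : ℕ) {r : ℕ} (z : Fin r → ℝ) (k : Fin r → ℤ) (m : ℕ) :
    UnitAddTorus.mFourier k (pt b z m) = ee ((b : ℝ) ^ m * ∑ i, k i * z i) := by
  have h1 : UnitAddTorus.mFourier k (pt b z m) = ∏ i, (fourier (k i) (pt b z m i) : ℂ) := rfl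
  rw [h1]
  have h2 : ∀ i, (fourier (k i) (pt b z m i) : ℂ) =
      Complex.exp (2 * Real.pi * ((b : ℝ) ^ m * (k i * z i) : ℝ) * Complex.I) := by
    intro i
    unfold pt
    rw [fourier_coe_apply]
    congr 1
    push_cast
    ring
  simp_rw [h2]
  rw [← Complex.exp_sum]
  unfold ee
  congr 1
  rw [← Finset.sum_mul, ← Finset.mul_sum]
  congr 2
  push_cast
  rw [Finset.mul_sum]

/-- **From Weyl sums to blocks.** -/
theorem cubes {b : ℕ} (hb : 2 ≤ b) {r : ℕ} (z : Fin r → ℝ) (hd : Dense (range (pt b z)))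
    (n : ℕ) (k : Fin r → ℤ) (hk : ∀ i, k i ∈ Finset.Ico (0 : ℤ) ((b : ℤ) ^ n)) :
    ∃ m, ∀ i, wd b (z i) n m = k i := by
  have hb0 : (0 : ℝ) < b := by exact_mod_cast (by omega : 0 < b)
  have hbn : (0 : ℝ) < (b : ℝ) ^ n := by positivity
  set I : Fin r → Set ℝ := fun i => Ioo ((k i : ℝ) / (b : ℝ) ^ n) (((k i : ℝ) + 1) / (b : ℝ) ^ n)
    with hI
  have hIne : ∀ i, (I i).Nonempty := by
    intro i
    rw [hI]
    simp only
    rw [nonempty_Ioo]
    apply div_lt_div_of_pos_right _ hbn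
    linarith
  have hopen : IsOpen (Set.pi univ fun i => (fun s : ℝ => (s : UnitAddCircle)) '' I i) := by
    refine isOpen_set_pi finite_univ fun i _ => ?_
    exact QuotientAddGroup.isOpenMap_coe _ isOpen_Ioo
  have hne : (Set.pi univ fun i => (fun s : ℝ => (s : UnitAddCircle)) '' I i).Nonempty := by
    rw [univ_pi_nonempty_iff]
    exact fun i => (hIne i).image _
  obtain ⟨_, ⟨m, rfl⟩, hm⟩ := hd.exists_mem_open hopen hne
  refine ⟨m, fun i => ?_⟩
  obtain ⟨s, hs1, hs2⟩ := hm i (mem_univ i)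
  obtain ⟨hs3, hs4⟩ := hs1
  rw [div_lt_iff₀ hbn] at hs3
  rw [lt_div_iff₀ hbn] at hs4
  have hki := Finset.mem_Ico.1 (hk i)
  have hk0 : (0 : ℝ) ≤ k i := by exact_mod_cast hki.1
  have hk1 : ((k i : ℝ) + 1) ≤ (b : ℝ) ^ n := by
    have : k i + 1 ≤ (b : ℤ) ^ n := hki.2
    exact_mod_cast this
  have hs0 : 0 ≤ s := by
    by_contra hneg
    push Not at hneg
    nlinarith
  have hs5 : s < 1 := by
    by_contra hge
    push Not at hge
    nlinarith
  have h1 : Int.fract ((b : ℝ) ^ m * z i) = s := by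
    have h2 : ((s - (b : ℝ) ^ m * z i : ℝ) : UnitAddCircle) = 0 := by
      rw [AddCircle.coe_sub, sub_eq_zero]
      exact hs2
    rw [AddCircle.coe_eq_zero_iff] at h2
    obtain ⟨l, hl⟩ := h2
    rw [zsmul_eq_mul, mul_one] at hl
    rw [Int.fract_eq_iff]
    refine ⟨hs0, hs5, -l, ?_⟩
    push_cast
    linarith
  unfold wd
  rw [h1, Int.floor_eq_iff]
  constructor
  · linarith
  · linarith

/-- **Weyl sums and dimensions.** -/
theorem dims_of_sums {b : ℕ} (hb : 2 ≤ b) {r : ℕ} (x : Fin (r + 1) → ℝ) (m P : ℕ → ℕ)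
    (hP : ∀ j, 0 < P j)
    (h : ∀ k : Fin r → ℤ, k ≠ 0 → Tendsto (fun j => (∑ l ∈ Finset.range (P j),
      ee ((b : ℝ) ^ (m j + l) * ∑ i, k i * (x i.succ - x 0))) / (P j : ℂ)) atTop (𝓝 0)) :
    (r : ENNReal) ≤ ∑ i, dimH (orb b (x i)) := by
  refine dims hb x fun n k hk => ?_
  refine cubes hb (fun i : Fin r => x i.succ - x 0) ?_ n k hk
  refine dense_torus _ m hP fun k hk => ?_
  refine (h k hk).congr fun j => ?_
  unfold wavg
  simp_rw [mFourier_pt]

end Pool.Agent.K1H67.CO
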