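import Pool.Agent.K1H67.CO.Diff

/-!
# Upper bounds for the dimension of orbit closures; sums of real numbers
-/

set_option autoImplicit false

open Finset Filter Topology Set MeasureTheory
open scoped ENNReal NNReal

namespace Pool.Agent.K1H67.CO

/-- **From numbers of blocks to dimensions.** -/
theorem dimH_le_of_count {b : ℕ} (hb : 2 ≤ b) {x s C : ℝ}
    (h : ∀ n : ℕ, ((W hb x n).card : ℝ) ≤ C * (b : ℝ) ^ (n * s)) :
    dimH (orb b x) ≤ ENNReal.ofReal s := by
  classical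
  have hbR : (2 : ℝ) ≤ b := by exact_mod_cast hb
  have hb0 : (0 : ℝ) < b := by linarith
  have hC0 : 0 ≤ C := by
    have h1 := h 0
    have h2 : (0 : ℝ) ≤ ((W hb x 0).card : ℝ) := Nat.cast_nonneg _
    have h3 : (b : ℝ) ^ (((0 : ℕ) : ℝ) * s) = 1 := by simp
    rw [h3, mul_one] at h1
    linarith
  rw [ENNReal.ofReal]
  refine dimH_le fun d' hd' => ?_
  by_contra hcon
  rw [not_le] at hcon
  have hsd : s < d' := by
    have h1 : Real.toNNReal s < d' := by exact_mod_cast hcon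
    exact (Real.le_coe_toNNReal s).trans_lt (by exact_mod_cast h1)
  have hinv : (b : ℝ)⁻¹ < 1 := inv_lt_one_of_one_lt₀ (by linarith)
  have hr : Tendsto (fun n : ℕ => ENNReal.ofReal (((b : ℝ)⁻¹) ^ n)) atTop (𝓝 0) := by
    have h1 := tendsto_pow_atTop_nhds_zero_of_lt_one (by positivity : (0 : ℝ) ≤ (b : ℝ)⁻¹) hinv
    have h2 := ENNReal.tendsto_ofReal h1
    rwa [ENNReal.ofReal_zero] at h2
  have hle := Measure.hausdorffMeasure_le_liminf_sum (ι := fun n : ℕ => W hb x n) (d' : ℝ) (orb b x)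
    (fun n : ℕ => ENNReal.ofReal (((b : ℝ)⁻¹) ^ n)) hr
    (fun n w => Icc (((w : ℤ) : ℝ) * ((b : ℝ)⁻¹) ^ n) (((w : ℤ) : ℝ) * ((b : ℝ)⁻¹) ^ n + ((b : ℝ)⁻¹) ^ n))
    (Eventually.of_forall fun n w => by
      rw [Real.ediam_Icc, add_sub_cancel_left])
    (Eventually.of_forall fun n => by
      have hcl : IsClosed (⋃ w : W hb x n, Icc (((w : ℤ) : ℝ) * ((b : ℝ)⁻¹) ^ n)
          (((w : ℤ) : ℝ) * ((b : ℝ)⁻¹) ^ n + ((b : ℝ)⁻¹) ^ n)) :=
        isClosed_iUnion_of_finite fun w => isClosed_Icc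
      refine closure_minimal ?_ hcl
      rintro _ ⟨m, rfl⟩
      refine mem_iUnion.2 ⟨⟨wd b x n m, (mem_W hb x n).2 ⟨m, rfl⟩⟩, ?_⟩
      simp only
      unfold wd
      have hbn : (0 : ℝ) < (b : ℝ) ^ n := by positivity
      have h1 := Int.floor_le ((b : ℝ) ^ n * Int.fract ((b : ℝ) ^ m * x))
      have h2 := Int.lt_floor_add_one ((b : ℝ) ^ n * Int.fract ((b : ℝ) ^ m * x))
      rw [inv_pow]
      constructor
      · rw [← div_eq_mul_inv, div_le_iff₀ hbn]
        linarith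
      · rw [← one_mul ((b : ℝ) ^ n)⁻¹, ← mul_assoc, mul_one, ← add_mul, ← div_eq_mul_inv,
          le_div_iff₀ hbn]
        linarith)
  have hzero : Tendsto (fun n : ℕ => ∑ w : W hb x n, Metric.ediam (Icc (((w : ℤ) : ℝ) * ((b : ℝ)⁻¹) ^ n)
      (((w : ℤ) : ℝ) * ((b : ℝ)⁻¹) ^ n + ((b : ℝ)⁻¹) ^ n)) ^ (d' : ℝ)) atTop (𝓝 0) := by
    have h1 : ∀ n : ℕ, ∑ w : W hb x n, Metric.ediam (Icc (((w : ℤ) : ℝ) * ((b : ℝ)⁻¹) ^ n)
        (((w : ℤ) : ℝ) * ((b : ℝ)⁻¹) ^ n + ((b : ℝ)⁻¹) ^ n)) ^ (d' : ℝ) ≤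
        ENNReal.ofReal (C * ((b : ℝ) ^ (s - d')) ^ n) := by
      intro n
      have hdpos : 0 ≤ (d' : ℝ) := d'.2
      have h2 : ∀ w : W hb x n, Metric.ediam (Icc (((w : ℤ) : ℝ) * ((b : ℝ)⁻¹) ^ n)
          (((w : ℤ) : ℝ) * ((b : ℝ)⁻¹) ^ n + ((b : ℝ)⁻¹) ^ n)) ^ (d' : ℝ) =
          ENNReal.ofReal ((((b : ℝ)⁻¹) ^ n) ^ (d' : ℝ)) := by
        intro w
        rw [Real.ediam_Icc, add_sub_cancel_left, ENNReal.ofReal_rpow_of_nonneg (by positivity) hdpos]
      rw [Finset.sum_congr rfl fun w _ => h2 w, Finset.sum_const, Finset.card_univ,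
        Fintype.card_coe, nsmul_eq_mul]
      have h3 : (((W hb x n).card : ℕ) : ℝ≥0∞) = ENNReal.ofReal ((W hb x n).card : ℝ) := by
        rw [ENNReal.ofReal_natCast]
      rw [h3, ← ENNReal.ofReal_mul (Nat.cast_nonneg _)]
      apply ENNReal.ofReal_le_ofReal
      calc ((W hb x n).card : ℝ) * (((b : ℝ)⁻¹) ^ n) ^ (d' : ℝ)
          ≤ (C * (b : ℝ) ^ (n * s)) * (((b : ℝ)⁻¹) ^ n) ^ (d' : ℝ) := by
            gcongr
            exact h n
        _ = C * ((b : ℝ) ^ (s - d')) ^ n := by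
            rw [mul_assoc]
            congr 1
            rw [inv_pow, Real.inv_rpow (by positivity), ← Real.rpow_natCast b n,
              ← Real.rpow_mul hb0.le, ← Real.rpow_neg hb0.le, ← Real.rpow_add hb0,
              ← Real.rpow_natCast, ← Real.rpow_mul hb0.le]
            congr 1
            ring
    have h2 : (b : ℝ) ^ (s - d') < 1 := Real.rpow_lt_one_of_one_lt_of_neg (by linarith) (by linarith)
    have h3 := (tendsto_pow_atTop_nhds_zero_of_lt_one (by positivity) h2).const_mul C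
    rw [mul_zero] at h3
    have h4 := ENNReal.tendsto_ofReal h3
    rw [ENNReal.ofReal_zero] at h4
    exact tendsto_of_tendsto_of_tendsto_of_le_of_le tendsto_const_nhds h4 (fun n => bot_le) h1
  rw [hzero.liminf_eq, hd'] at hle
  exact absurd hle (by simp)

lemma card_W_add_le {b : ℕ} (hb : 2 ≤ b) (x z : ℝ) (n : ℕ) :
    (W hb (x + z) n).card ≤ 2 * ((W hb x n).card * (W hb z n).card) := by
  classical
  have hsub : W hb (x + z) n ⊆ ((W hb x n ×ˢ W hb z n) ×ˢ ({0, 1} : Finset ℤ)).image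
      fun p => (p.1.1 + p.1.2 + p.2) % (b : ℤ) ^ n := by
    intro w hw
    obtain ⟨m, rfl⟩ := (mem_W hb _ _).1 hw
    obtain ⟨ε, hε, t, ht⟩ := wd_add (b := b) x z n m
    rw [Finset.mem_image]
    refine ⟨((wd b x n m, wd b z n m), ε), ?_, ?_⟩
    · rw [Finset.mem_product, Finset.mem_product]
      exact ⟨⟨(mem_W hb _ _).2 ⟨m, rfl⟩, (mem_W hb _ _).2 ⟨m, rfl⟩⟩, hε⟩
    · simp only
      have h1 := Finset.mem_Ico.1 (wd_mem hb (x + z) n m)
      rw [← Int.emod_eq_of_lt h1.1 h1.2, ht, Int.add_mul_emod_self_left]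
  refine (Finset.card_le_card hsub).trans (Finset.card_image_le.trans ?_)
  rw [Finset.card_product, Finset.card_product, mul_comm]
  exact Nat.mul_le_mul_right _ Finset.card_le_two

/-- **Subadditivity.** -/
theorem dimH_add_le {b : ℕ} (hb : 2 ≤ b) (x z : ℝ) :
    dimH (orb b (x + z)) ≤ dimH (orb b x) + dimH (orb b z) := by
  have hb0 : (0 : ℝ) < b := by exact_mod_cast (by omega : 0 < b)
  have hx : dimH (orb b x) ≠ ⊤ := ne_top_of_le_ne_top ENNReal.one_ne_top (dimH_orb_le b x)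
  have hz : dimH (orb b z) ≠ ⊤ := ne_top_of_le_ne_top ENNReal.one_ne_top (dimH_orb_le b z)
  refine ENNReal.le_of_forall_pos_le_add fun ε hε _ => ?_
  set s₁ : ℝ := (dimH (orb b x)).toReal + ε / 2 with hs₁
  set s₂ : ℝ := (dimH (orb b z)).toReal + ε / 2 with hs₂
  have hεR : (0 : ℝ) < ε := by exact_mod_cast hε
  have h1 : dimH (orb b x) < ENNReal.ofReal s₁ := by
    rw [← ENNReal.ofReal_toReal hx, hs₁]
    have := ENNReal.toReal_nonneg (a := dimH (orb b x))
    exact (ENNReal.ofReal_lt_ofReal_iff (by linarith)).2 (by linarith)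
  have h2 : dimH (orb b z) < ENNReal.ofReal s₂ := by
    rw [← ENNReal.ofReal_toReal hz, hs₂]
    have := ENNReal.toReal_nonneg (a := dimH (orb b z))
    exact (ENNReal.ofReal_lt_ofReal_iff (by linarith)).2 (by linarith)
  obtain ⟨C₁, hC₁, hc₁⟩ := box hb h1
  obtain ⟨C₂, hC₂, hc₂⟩ := box hb h2
  have h3 : dimH (orb b (x + z)) ≤ ENNReal.ofReal (s₁ + s₂) := by
    refine dimH_le_of_count hb (C := 2 * (C₁ * C₂)) fun n => ?_
    have h4 : ((W hb (x + z) n).card : ℝ) ≤ 2 * ((W hb x n).card * (W hb z n).card) := by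
      exact_mod_cast card_W_add_le hb x z n
    refine h4.trans ?_
    calc (2 : ℝ) * ((W hb x n).card * (W hb z n).card)
        ≤ 2 * ((C₁ * (b : ℝ) ^ (n * s₁)) * (C₂ * (b : ℝ) ^ (n * s₂))) := by
          gcongr
          · exact hc₁ n
          · exact hc₂ n
      _ = 2 * (C₁ * C₂) * ((b : ℝ) ^ (n * s₁) * (b : ℝ) ^ (n * s₂)) := by ring
      _ = 2 * (C₁ * C₂) * (b : ℝ) ^ (n * (s₁ + s₂)) := by
          rw [← Real.rpow_add hb0]
          congr 2
          ring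
  refine h3.trans (le_of_eq ?_)
  have h5 : s₁ + s₂ = (dimH (orb b x)).toReal + (dimH (orb b z)).toReal + ε := by
    rw [hs₁, hs₂]; ring
  rw [h5, ENNReal.ofReal_add (by positivity) hεR.le, ENNReal.ofReal_add ENNReal.toReal_nonneg
    ENNReal.toReal_nonneg, ENNReal.ofReal_toReal hx, ENNReal.ofReal_toReal hz,
    ENNReal.ofReal_coe_nnreal]

lemma dimH_neg_le (b : ℕ) (z : ℝ) : dimH (orb b (-z)) ≤ dimH (orb b z) := by
  have hcl : IsClosed ((fun t : ℝ => 1 - t) '' orb b z ∪ {0}) :=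
    (((orb_compact b z).image (by fun_prop)).isClosed).union isClosed_singleton
  have hsub : orb b (-z) ⊆ (fun t : ℝ => 1 - t) '' orb b z ∪ {0} := by
    refine closure_minimal ?_ hcl
    rintro _ ⟨m, rfl⟩
    simp only
    rw [mul_neg]
    by_cases h : Int.fract ((b : ℝ) ^ m * z) = 0
    · right
      rw [Set.mem_singleton_iff, Int.fract_neg_eq_zero]
      exact h
    · left
      exact ⟨_, subset_closure ⟨m, rfl⟩, (Int.fract_neg h).symm⟩
  refine (dimH_mono hsub).trans ?_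
  rw [dimH_union]
  refine max_le ?_ ?_
  · have hlip : LipschitzWith 1 (fun t : ℝ => 1 - t) := by
      refine LipschitzWith.of_dist_le_mul fun s t => ?_
      rw [Real.dist_eq, Real.dist_eq, NNReal.coe_one, one_mul]
      have : 1 - s - (1 - t) = -(s - t) := by ring
      rw [this, abs_neg]
    exact hlip.dimH_image_le _
  · rw [dimH_singleton]; exact bot_le

/-- adding a number whose orbit closure has dimension zero -/
theorem dimH_add_zero {b : ℕ} (hb : 2 ≤ b) (y : ℝ) {z : ℝ} (hz : dimH (orb b z) = 0) :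
    dimH (orb b (y + z)) = dimH (orb b y) := by
  refine le_antisymm ?_ ?_
  · have := dimH_add_le hb y z
    rwa [hz, add_zero] at this
  · have h1 := dimH_add_le hb (y + z) (-z)
    have h2 : dimH (orb b (-z)) = 0 := le_antisymm ((dimH_neg_le b z).trans hz.le) bot_le
    rwa [h2, add_zero, add_neg_cancel_right] at h1

end Pool.Agent.K1H67.CO
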